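import Pool.Agent.N805.FL4

/-! # Repulsion of the zeros and the total mass of the form factor beyond one -/

set_option autoImplicit false

open MeasureTheory Set Filter Topology
open scoped NNReal ENNReal

namespace Pool.Agent.N805.FL

open Pool.Agent.Y749.Rig
open Pool.Agent.Y744.G (zeros mult X Montgomery N X_eq N_eq Mont_iff)

/-- the pairing with the tent, from above -/
theorem S_upK : ∃ K : ℝ, 0 ≤ K ∧ ∀ l : Filter ℝ, l ≤ atTop → ∀ κ β0 : ℝ, 0 ≤ κ → 0 < β0 →
    (∀ β : ℝ, 0 < β → β ≤ β0 → ∀ ε : ℝ, 0 < ε → ∀ᶠ T in l,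
      (Mp T).real (Icc (-β) β) ≤ 1 + κ * β + ε) →
    ∀ J : ℕ, ∀ R : ℝ, R = 2 ^ J / β0 → ∀ ε : ℝ, 0 < ε → ∀ᶠ T in l,
      ∫ x, fl (tr R) x ∂(Mp T) ≤ 1 + 3 * κ / R + (1 + 1 / β0 ^ 2) * K / R ^ 2 + ε := by
  obtain ⟨C0, hC0, hB⟩ := Mp_bdd
  have hD := DD_nonneg 0
  refine ⟨1 / 4 * (2 * C0 * DD 0), by positivity, fun l hl κ β0 hκ hβ hrep J R hR ε hε => ?_⟩
  have hR0 : 0 < R := by rw [hR]; positivity
  obtain ⟨e, he⟩ : ∃ e : ℝ, e = ε / 8 := ⟨_, rfl⟩
  have he0 : 0 < e := by rw [he]; positivity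
  have hbj : ∀ j ∈ Finset.range (J + 1), (0 : ℝ) < 2 ^ j / R ∧ (2 : ℝ) ^ j / R ≤ β0 := by
    intro j hj
    have hj' : j ≤ J := by have := Finset.mem_range.1 hj; omega
    refine ⟨by positivity, ?_⟩
    rw [div_le_iff₀ hR0, hR, mul_div_cancel₀ _ hβ.ne']
    exact pow_le_pow_right₀ (by norm_num) hj'
  have hev : ∀ᶠ T in l, ∀ j ∈ Finset.range (J + 1),
      (Mp T).real (Icc (-(2 ^ j / R)) (2 ^ j / R)) ≤ 1 + κ * (2 ^ j / R) + e := by
    rw [Filter.eventually_all_finset]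
    intro j hj
    exact hrep _ (hbj j hj).1 (hbj j hj).2 e he0
  filter_upwards [hev, hl (Mp_zero he0), hl hB, hl (eventually_ge_atTop 10)] with T h1 h2 h3 hT
  have hfin := Mp_fin T
  have hm0 : (Mp T).real {0} ≤ 1 + κ / R + e := by
    have h4 := h1 0 (Finset.mem_range.2 (by omega))
    rw [pow_zero, mul_one_div] at h4
    refine le_trans (measureReal_mono ?_) h4
    intro x hx
    rw [mem_singleton_iff] at hx
    rw [hx]
    exact ⟨by have : (0:ℝ) < 1 / R := by positivity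
              linarith, by positivity⟩
  have hint : Integrable (fl (tr R)) (Mp T) :=
    Bdd.integrable (by linarith) h3 (fl_cont (tr_int hR0)) (fl_qd (adm_tr hR0))
  obtain ⟨hi1, hi2⟩ := inv_int (by linarith) h3
  have hms : MeasurableSet ({0} : Set ℝ) := measurableSet_singleton 0
  have hsplit : ∫ x, fl (tr R) x ∂(Mp T) =
      (Mp T).real {0} + ∫ x in ({0} : Set ℝ)ᶜ, fl (tr R) x ∂(Mp T) := by
    rw [← integral_add_compl hms hint, integral_singleton, fl_tr_zero hR0]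
    simp
  have hii : ∀ j : ℕ, Integrable ((Icc (-((2 : ℝ) ^ j / R)) (2 ^ j / R)).indicator
      (fun _ => (1 : ℝ))) ((Mp T).restrict ({0} : Set ℝ)ᶜ) := fun j =>
    (integrable_const (1 : ℝ)).indicator measurableSet_Icc
  have hsum : Integrable (fun x => ∑ j ∈ Finset.range (J + 1), (1 / 4 : ℝ) ^ j *
      (Icc (-((2 : ℝ) ^ j / R)) (2 ^ j / R)).indicator (fun _ => (1 : ℝ)) x)
      ((Mp T).restrict ({0} : Set ℝ)ᶜ) :=
    integrable_finsetSum _ fun j _ => (hii j).const_mul _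
  have hle : ∫ x in ({0} : Set ℝ)ᶜ, fl (tr R) x ∂(Mp T) ≤
      ∫ x in ({0} : Set ℝ)ᶜ, ((∑ j ∈ Finset.range (J + 1), (1 / 4 : ℝ) ^ j *
      (Icc (-(2 ^ j / R)) (2 ^ j / R)).indicator (fun _ => (1 : ℝ)) x) +
      (1 + 1 / β0 ^ 2) / (4 * R ^ 2) * (1 / (1 + x ^ 2))) ∂(Mp T) := by
    refine setIntegral_mono_on hint.integrableOn (hsum.add (hi1.integrableOn.const_mul _))
      hms.compl fun x hx => ?_
    exact majorant hβ J hR hx
  rw [integral_add hsum (hi1.integrableOn.const_mul _), integral_finsetSum _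
    (fun j _ => (hii j).const_mul _), integral_const_mul] at hle
  have hterm : ∀ j ∈ Finset.range (J + 1), ∫ x in ({0} : Set ℝ)ᶜ, (1 / 4 : ℝ) ^ j *
      (Icc (-((2 : ℝ) ^ j / R)) (2 ^ j / R)).indicator (fun _ => (1 : ℝ)) x ∂(Mp T) ≤
      (κ / R + 2 * e) * (1 / 2) ^ j := by
    intro j hj
    have hbp := (hbj j hj).1
    rw [integral_const_mul, setIntegral_indicator measurableSet_Icc, setIntegral_const, smul_eq_mul,
      mul_one]
    have e1 : (Mp T).real (({0} : Set ℝ)ᶜ ∩ Icc (-(2 ^ j / R)) (2 ^ j / R)) =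
        (Mp T).real (Icc (-(2 ^ j / R)) (2 ^ j / R)) - (Mp T).real {0} := by
      have h5 : ({0} : Set ℝ)ᶜ ∩ Icc (-((2 : ℝ) ^ j / R)) (2 ^ j / R) =
          Icc (-((2 : ℝ) ^ j / R)) (2 ^ j / R) \ {0} := by
        ext x; simp only [mem_inter_iff, Set.mem_sdiff, mem_compl_iff]; tauto
      rw [h5, measureReal_sdiff (by
        intro x hx
        rw [mem_singleton_iff] at hx
        rw [hx]
        exact ⟨by linarith, hbp.le⟩) hms]
    rw [e1]
    have h6 := h1 j hj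
    have h7 : (Mp T).real (Icc (-(2 ^ j / R)) (2 ^ j / R)) - (Mp T).real {0} ≤
        κ * (2 ^ j / R) + 2 * e := by linarith
    calc (1 / 4 : ℝ) ^ j * ((Mp T).real (Icc (-(2 ^ j / R)) (2 ^ j / R)) - (Mp T).real {0}) ≤
          (1 / 4 : ℝ) ^ j * (κ * (2 ^ j / R) + 2 * e) := by gcongr
      _ = κ / R * ((1 / 4 : ℝ) ^ j * 2 ^ j) + 2 * e * (1 / 4 : ℝ) ^ j := by ring
      _ = κ / R * (1 / 2 : ℝ) ^ j + 2 * e * (1 / 4 : ℝ) ^ j := by
          rw [← mul_pow]; norm_num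
      _ ≤ κ / R * (1 / 2 : ℝ) ^ j + 2 * e * (1 / 2 : ℝ) ^ j := by
          gcongr
          norm_num
      _ = _ := by ring
  have h8 := Finset.sum_le_sum hterm
  rw [← Finset.mul_sum] at h8
  have h9 : ∑ j ∈ Finset.range (J + 1), (1 / 2 : ℝ) ^ j ≤ 2 := sum_geometric_two_le _
  have h10 : (κ / R + 2 * e) * ∑ j ∈ Finset.range (J + 1), (1 / 2 : ℝ) ^ j ≤
      (κ / R + 2 * e) * 2 := by gcongr
  have h11 : ∫ x in ({0} : Set ℝ)ᶜ, 1 / (1 + x ^ 2) ∂(Mp T) ≤ 2 * C0 * DD 0 :=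
    (setIntegral_le_integral hi1 (ae_of_all _ fun x => by
      show (0 : ℝ) ≤ 1 / (1 + x ^ 2)
      positivity)).trans hi2
  have h12 : (1 + 1 / β0 ^ 2) / (4 * R ^ 2) * ∫ x in ({0} : Set ℝ)ᶜ, 1 / (1 + x ^ 2) ∂(Mp T) ≤
      (1 + 1 / β0 ^ 2) / (4 * R ^ 2) * (2 * C0 * DD 0) := by gcongr
  have h13 : (1 + 1 / β0 ^ 2) / (4 * R ^ 2) * (2 * C0 * DD 0) =
      (1 + 1 / β0 ^ 2) * (1 / 4 * (2 * C0 * DD 0)) / R ^ 2 := by
    field_simp
  have h14 : 3 * κ / R = κ / R + κ / R * 2 := by ring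
  rw [hsplit, h14, ← h13]
  linarith


/-- the pairing with the tent, from above, for all large `R` -/
theorem S_all : ∃ K : ℝ, 0 ≤ K ∧ ∀ l : Filter ℝ, l ≤ atTop → ∀ κ β0 : ℝ, 0 ≤ κ → 0 < β0 →
    (∀ β : ℝ, 0 < β → β ≤ β0 → ∀ ε : ℝ, 0 < ε → ∀ᶠ T in l,
      (Mp T).real (Icc (-β) β) ≤ 1 + κ * β + ε) →
    ∀ R : ℝ, 1 / β0 ≤ R → ∀ ε : ℝ, 0 < ε → ∀ᶠ T in l,
      ∫ x, fl (tr R) x ∂(Mp T) ≤ 1 + 3 * κ / R + (1 + 4 / β0 ^ 2) * K / R ^ 2 + ε := by
  obtain ⟨K, hK, h⟩ := S_upK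
  refine ⟨K, hK, fun l hl κ β0 hκ hβ hrep R hR ε hε => ?_⟩
  have hR0 : 0 < R := lt_of_lt_of_le (by positivity) hR
  have h1 : 1 ≤ β0 * R := by
    rw [div_le_iff₀ hβ] at hR
    linarith
  obtain ⟨J, hJ1, hJ2⟩ := exists_nat_pow_near h1 (show (1 : ℝ) < 2 by norm_num)
  obtain ⟨β1, hβ1⟩ : ∃ β1 : ℝ, β1 = 2 ^ J / R := ⟨_, rfl⟩
  have hb0 : 0 < β1 := by rw [hβ1]; positivity
  have hb1 : β1 ≤ β0 := by rw [hβ1, div_le_iff₀ hR0]; exact hJ1
  have hb2 : β0 / 2 < β1 := by
    rw [hβ1, lt_div_iff₀ hR0]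
    rw [pow_succ] at hJ2
    linarith
  have hRJ : R = 2 ^ J / β1 := by rw [hβ1]; field_simp
  filter_upwards [h l hl κ β1 hκ hb0 (fun β g1 g2 => hrep β g1 (g2.trans hb1)) J R hRJ ε hε] with T hT
  refine hT.trans ?_
  have h2 : 1 / β1 ^ 2 ≤ 4 / β0 ^ 2 := by
    rw [div_le_div_iff₀ (by positivity) (by positivity)]
    nlinarith
  have h3 : (1 + 1 / β1 ^ 2) * K / R ^ 2 ≤ (1 + 4 / β0 ^ 2) * K / R ^ 2 := by gcongr
  linarith

/-- the weighted mass of `F - min(α, 1)` -/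
noncomputable def BB (T R : ℝ) : ℝ := ∫ α in (1 / 2 : ℝ)..R, (1 - α / R) * (Fr T α - mn α)

lemma mn_tent {R : ℝ} (hR : 1 ≤ R) : ∫ α in (1 / 2 : ℝ)..R, (1 - α / R) * mn α =
    R / 2 - 5 / 8 + 5 / (24 * R) := by
  have hR0 : 0 < R := by linarith
  have hc : Continuous fun α : ℝ => (1 - α / R) * mn α := by
    have := mn_cont
    fun_prop
  rw [← intervalIntegral.integral_add_adjacent_intervals (b := 1) (hc.intervalIntegrable _ _)
    (hc.intervalIntegrable _ _)]
  have e1 : ∫ α in (1 / 2 : ℝ)..1, (1 - α / R) * mn α = ∫ α in (1 / 2 : ℝ)..1, (α - 1 / R * α ^ 2) := by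
    refine intervalIntegral.integral_congr fun α hα => ?_
    rw [uIcc_of_le (by norm_num)] at hα
    have : mn α = α := by
      unfold mn
      rw [abs_of_nonneg (by linarith [hα.1]), min_eq_left hα.2]
    rw [this]
    ring
  have e2 : ∫ α in (1 : ℝ)..R, (1 - α / R) * mn α = ∫ α in (1 : ℝ)..R, (1 - 1 / R * α) := by
    refine intervalIntegral.integral_congr fun α hα => ?_
    rw [uIcc_of_le hR] at hα
    have : mn α = 1 := by
      unfold mn
      rw [abs_of_nonneg (by linarith [hα.1]), min_eq_right hα.1]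
    rw [this]
    ring
  rw [e1, e2, intervalIntegral.integral_sub (by
    apply Continuous.intervalIntegrable; fun_prop) (by
    apply Continuous.intervalIntegrable; fun_prop), intervalIntegral.integral_sub (by
    apply Continuous.intervalIntegrable; fun_prop) (by
    apply Continuous.intervalIntegrable; fun_prop), intervalIntegral.integral_const_mul,
    intervalIntegral.integral_const_mul, intervalIntegral.integral_const, integral_id, integral_id,
    integral_pow]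
  simp only [smul_eq_mul]
  field_simp
  ring

/-- the identity for fixed `T` -/
lemma BB_id {T R : ℝ} (hR : 1 ≤ R) : R * (∫ α, tr R α * Fr T α) - 2 * BB T R =
    (1 - 1 / (2 * R)) * (∫ α in (-(1 / 2 : ℝ))..(1 / 2), Fr T α) + 1 / R * HT T (1 / 2) +
      (R - 5 / 4 + 5 / (12 * R)) := by
  have hR0 : 0 < R := by linarith
  have hFc := Fr_cont T
  have htc := tr_cont R
  have hci : ∀ {g : ℝ → ℝ}, Continuous g → ∀ p q : ℝ, IntervalIntegrable g volume p q :=
    fun hg p q => hg.intervalIntegrable p q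
  have c1 : Continuous fun α => tr R α * Fr T α := htc.mul hFc
  have d1 : ∫ α, tr R α * Fr T α = (∫ α in (-(1 / 2 : ℝ))..(1 / 2), tr R α * Fr T α) +
      2 * ∫ α in (1 / 2 : ℝ)..R, tr R α * Fr T α := by
    rw [int_supp hR0 (fun x hx => by rw [tr_supp hR0 x hx, zero_mul])]
    rw [← intervalIntegral.integral_add_adjacent_intervals (a := -R) (b := -(1 / 2 : ℝ)) (c := R)
      (hci c1 _ _) (hci c1 _ _), ← intervalIntegral.integral_add_adjacent_intervals
      (a := -(1 / 2 : ℝ)) (b := 1 / 2) (c := R) (hci c1 _ _) (hci c1 _ _)]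
    have : ∫ α in (-R)..(-(1 / 2 : ℝ)), tr R α * Fr T α = ∫ α in (1 / 2 : ℝ)..R, tr R α * Fr T α := by
      have h6 := intervalIntegral.integral_comp_neg (a := (1 / 2 : ℝ)) (b := R)
        (fun α => tr R α * Fr T α)
      rw [← h6]
      refine intervalIntegral.integral_congr fun α _ => ?_
      rw [tr_even, Fr_even]
    rw [this]
    ring
  have h2 : HT T (1 / 2) = ∫ α in (-(1 / 2 : ℝ))..(1 / 2), (1 / 2 - |α|) * Fr T α := by
    unfold HT
    rw [int_supp (show (0 : ℝ) < 1 / 2 by norm_num)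
      (fun x hx => by rw [tr_supp (by norm_num) x hx, zero_mul]),
      ← intervalIntegral.integral_const_mul]
    refine intervalIntegral.integral_congr fun α hα => ?_
    rw [uIcc_of_le (by norm_num)] at hα
    have h3 := tent_eq (show (0 : ℝ) < 1 / 2 by norm_num) α
    have h4 : |α| ≤ 1 / 2 := abs_le.2 hα
    rw [max_eq_right (by linarith)] at h3
    rw [← h3]
    ring
  have d2 : R * (∫ α in (-(1 / 2 : ℝ))..(1 / 2), tr R α * Fr T α) =
      (1 - 1 / (2 * R)) * (∫ α in (-(1 / 2 : ℝ))..(1 / 2), Fr T α) + 1 / R * HT T (1 / 2) := by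
    rw [h2, ← intervalIntegral.integral_const_mul, ← intervalIntegral.integral_const_mul,
      ← intervalIntegral.integral_const_mul, ← intervalIntegral.integral_add]
    · refine intervalIntegral.integral_congr fun α hα => ?_
      rw [uIcc_of_le (by norm_num)] at hα
      have h4 : |α| ≤ 1 / 2 := abs_le.2 hα
      have h5 : tr R α = (1 - |α| / R) / R := by
        unfold tr
        rw [max_eq_right]
        have : |α| / R ≤ 1 := by rw [div_le_one hR0]; linarith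
        linarith
      rw [h5]
      field_simp
      ring
    · exact (continuous_const.mul hFc).intervalIntegrable _ _
    · refine (continuous_const.mul ?_).intervalIntegrable _ _
      fun_prop
  have d3 : R * (2 * ∫ α in (1 / 2 : ℝ)..R, tr R α * Fr T α) = 2 * BB T R +
      2 * ∫ α in (1 / 2 : ℝ)..R, (1 - α / R) * mn α := by
    unfold BB
    have hmc := mn_cont
    have e1 : R * (2 * ∫ α in (1 / 2 : ℝ)..R, tr R α * Fr T α) =
        2 * ∫ α in (1 / 2 : ℝ)..R, R * (tr R α * Fr T α) := by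
      rw [intervalIntegral.integral_const_mul]; ring
    rw [e1, ← mul_add, ← intervalIntegral.integral_add (by
      apply Continuous.intervalIntegrable; fun_prop) (by
      apply Continuous.intervalIntegrable; fun_prop)]
    congr 1
    refine intervalIntegral.integral_congr fun α hα => ?_
    rw [uIcc_of_le (by linarith)] at hα
    rw [tr_eq hR0 (by linarith [hα.1]) hα.2]
    field_simp
    ring
  rw [d1, mul_add, d2, d3, mn_tent hR]
  field_simp
  ring

/-- the relation between the weighted mass and the pair sum -/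
lemma BB_lim (RH : RiemannHypothesis) {R : ℝ} (hR : 1 ≤ R) :
    Tendsto (fun T => R * ((∫ x, fl (tr R) x ∂(Mp T)) - 1) - 2 * BB T R) atTop
      (𝓝 (1 / (3 * R))) := by
  have hR0 : 0 < R := by linarith
  have h1 := ((mont RH (c := 1 / 2) (by norm_num) (by norm_num)).const_mul (1 - 1 / (2 * R))).add
    ((HT_lim RH (c := 1 / 2) (by norm_num) (by norm_num)).const_mul (1 / R))
  have h2 := (ww_remove (fl_cont (tr_int hR0)) (fl_qd (adm_tr hR0))).const_mul R
  have h3 := (h1.sub h2).add_const ((R - 5 / 4 + 5 / (12 * R)) - R)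
  have e : (1 - 1 / (2 * R)) * (1 + (1 / 2) ^ 2) + 1 / R * (1 / 2 + (1 / 2) ^ 3 / 3) - R * 0 +
      ((R - 5 / 4 + 5 / (12 * R)) - R) = 1 / (3 * R) := by
    field_simp
    ring
  rw [e] at h3
  refine h3.congr fun T => ?_
  have h4 := BB_id (T := T) hR
  rw [Fr_pair (tr_int hR0)] at h4
  linarith

lemma fl_tr_ge {R : ℝ} (hR : 0 < R) {x : ℝ} (hx : |x| ≤ 1 / (2 * R)) :
    4 / Real.pi ^ 2 ≤ fl (tr R) x := by
  have hpi := Real.pi_pos
  rcases eq_or_ne x 0 with h | h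
  · rw [h, fl_tr_zero hR, div_le_one (by positivity)]
    nlinarith [Real.pi_gt_three]
  · rw [fl_tr hR h]
    have hx0 : 0 < |x| := abs_pos.2 h
    have e1 : (Real.sin (Real.pi * R * x) / (Real.pi * R * x)) ^ 2 =
        (Real.sin (Real.pi * R * |x|) / (Real.pi * R * |x|)) ^ 2 := by
      rcases abs_choice x with h1 | h1
      · rw [h1]
      · rw [h1, mul_neg, Real.sin_neg, neg_div_neg_eq]
    rw [e1]
    have h2 : Real.pi * R * |x| ≤ Real.pi / 2 := by
      calc Real.pi * R * |x| ≤ Real.pi * R * (1 / (2 * R)) := by gcongr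
        _ = Real.pi / 2 := by field_simp
    have h3 := Real.mul_le_sin (x := Real.pi * R * |x|) (by positivity) h2
    have h4 : 2 / Real.pi ≤ Real.sin (Real.pi * R * |x|) / (Real.pi * R * |x|) := by
      rw [le_div_iff₀ (by positivity)]
      exact h3
    calc 4 / Real.pi ^ 2 = (2 / Real.pi) ^ 2 := by rw [div_pow]; norm_num
      _ ≤ _ := pow_le_pow_left₀ (by positivity) h4 2

/-- the pair sum bounds the number of close pairs -/
lemma close_le {T R : ℝ} (hT : 10 ≤ T) (hR : 0 < R) {C : ℝ} (hC : 0 ≤ C) (hB : Bdd C (Mp T)) :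
    4 / Real.pi ^ 2 * ((Mp T).real (Icc (-(1 / (2 * R))) (1 / (2 * R))) - (Mp T).real {0}) ≤
      (∫ x, fl (tr R) x ∂(Mp T)) - (Mp T).real {0} := by
  have hfin := Mp_fin T
  have hint : Integrable (fl (tr R)) (Mp T) :=
    Bdd.integrable hC hB (fl_cont (tr_int hR)) (fl_qd (adm_tr hR))
  have hms : MeasurableSet ({0} : Set ℝ) := measurableSet_singleton 0
  have hr : 0 < 1 / (2 * R) := by positivity
  have hsub : ({0} : Set ℝ) ⊆ Icc (-(1 / (2 * R))) (1 / (2 * R)) := by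
    intro x hx
    rw [mem_singleton_iff] at hx
    rw [hx]
    exact ⟨by linarith, hr.le⟩
  have h1 : (Mp T).real (Icc (-(1 / (2 * R))) (1 / (2 * R))) - (Mp T).real {0} =
      (Mp T).real (Icc (-(1 / (2 * R))) (1 / (2 * R)) \ {0}) :=
    (measureReal_sdiff hsub hms).symm
  have hsplit : ∫ x, fl (tr R) x ∂(Mp T) =
      (Mp T).real {0} + ∫ x in ({0} : Set ℝ)ᶜ, fl (tr R) x ∂(Mp T) := by
    rw [← integral_add_compl hms hint, integral_singleton, fl_tr_zero hR]
    simp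
  rw [h1, hsplit, add_sub_cancel_left]
  have h2 : 4 / Real.pi ^ 2 * (Mp T).real (Icc (-(1 / (2 * R))) (1 / (2 * R)) \ {0}) =
      ∫ x in Icc (-(1 / (2 * R))) (1 / (2 * R)) \ {0}, 4 / Real.pi ^ 2 ∂(Mp T) := by
    rw [setIntegral_const, smul_eq_mul, mul_comm]
  rw [h2]
  calc ∫ x in Icc (-(1 / (2 * R))) (1 / (2 * R)) \ {0}, 4 / Real.pi ^ 2 ∂(Mp T) ≤
        ∫ x in Icc (-(1 / (2 * R))) (1 / (2 * R)) \ {0}, fl (tr R) x ∂(Mp T) := by
        refine setIntegral_mono_on (integrable_const _).integrableOn hint.integrableOn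
          (measurableSet_Icc.diff hms) fun x hx => ?_
        exact fl_tr_ge hR (abs_le.2 hx.1)
    _ ≤ _ := by
        refine setIntegral_mono_set hint.integrableOn (ae_of_all _ fun x => fl_tr_nonneg hR x)
          (HasSubset.Subset.eventuallyLE fun x hx => ?_)
        exact hx.2

end Pool.Agent.N805.FL
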