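import Pool.Agent.Y749.Rig.FFf

/-! # Lower bounds for the means of the form factor, repulsion, and pair correlation -/

set_option autoImplicit false

open MeasureTheory Set Filter Topology
open scoped NNReal ENNReal

namespace Pool.Agent.N805.FL

open Pool.Agent.Y749.Rig

variable {l : Filter ℝ}

lemma inv_int {C : ℝ} (hC : 0 ≤ C) {m : Measure ℝ} (hm : Bdd C m) :
    Integrable (fun x : ℝ => 1 / (1 + x ^ 2)) m ∧ ∫ x, 1 / (1 + x ^ 2) ∂m ≤ 2 * C * DD 0 := by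
  have h1 := wt_univ hC hm
  have h2 : wt m univ = ∫⁻ x, ENNReal.ofReal (1 / (1 + x ^ 2)) ∂m := by
    unfold wt
    rw [withDensity_apply _ MeasurableSet.univ, Measure.restrict_univ]
  rw [h2] at h1
  have hmeas : AEStronglyMeasurable (fun x : ℝ => 1 / (1 + x ^ 2)) m := by
    refine Continuous.aestronglyMeasurable ?_
    exact continuous_const.div (by fun_prop) fun x => by positivity
  have hnn : 0 ≤ᵐ[m] fun x : ℝ => 1 / (1 + x ^ 2) := ae_of_all _ fun x => by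
    show (0 : ℝ) ≤ 1 / (1 + x ^ 2)
    positivity
  constructor
  · refine ⟨hmeas, ?_⟩
    rw [hasFiniteIntegral_iff_ofReal hnn]
    exact h1.trans_lt ENNReal.ofReal_lt_top
  · rw [integral_eq_lintegral_of_nonneg_ae hnn hmeas]
    exact ENNReal.toReal_le_of_le_ofReal (by have := DD_nonneg 0; positivity) h1

lemma fl_tr_le_one {R : ℝ} (hR : 0 < R) (x : ℝ) : fl (tr R) x ≤ 1 := by
  rcases eq_or_ne x 0 with h | h
  · rw [h, fl_tr_zero hR]
  · rw [fl_tr hR h, div_pow]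
    have hpi := Real.pi_pos
    have h1 : 0 < (Real.pi * R * x) ^ 2 := by positivity
    rw [div_le_one h1]
    exact Real.sin_sq_le_sq

lemma fl_tr_le_sq {R : ℝ} (hR : 0 < R) {x : ℝ} (hx : x ≠ 0) :
    fl (tr R) x ≤ 1 / (4 * (R * x) ^ 2) := by
  rw [fl_tr hR hx, div_pow]
  have hpi := Real.pi_gt_three
  have h0 : 0 < (R * x) ^ 2 := by positivity
  have h1 : 4 * (R * x) ^ 2 ≤ (Real.pi * R * x) ^ 2 := by
    have : (Real.pi * R * x) ^ 2 = Real.pi ^ 2 * (R * x) ^ 2 := by ring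
    rw [this]
    apply mul_le_mul_of_nonneg_right _ h0.le
    nlinarith
  calc Real.sin (Real.pi * R * x) ^ 2 / (Real.pi * R * x) ^ 2 ≤ 1 / (Real.pi * R * x) ^ 2 := by
        apply div_le_div_of_nonneg_right (Real.sin_sq_le_one _) (by positivity)
    _ ≤ _ := one_div_le_one_div_of_le (by positivity) h1

/-- the dyadic majorant -/
lemma majorant {β0 : ℝ} (hβ : 0 < β0) (J : ℕ) {R : ℝ} (hR : R = 2 ^ J / β0) {x : ℝ} (hx : x ≠ 0) :
    fl (tr R) x ≤ (∑ j ∈ Finset.range (J + 1), (1 / 4 : ℝ) ^ j *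
      (Icc (-(2 ^ j / R)) (2 ^ j / R)).indicator (fun _ => (1 : ℝ)) x) +
      (1 + 1 / β0 ^ 2) / (4 * R ^ 2) * (1 / (1 + x ^ 2)) := by
  classical
  have hR0 : 0 < R := by rw [hR]; positivity
  have hx0 : 0 < |x| := abs_pos.2 hx
  have hind : ∀ j : ℕ, |x| ≤ 2 ^ j / R →
      (Icc (-((2 : ℝ) ^ j / R)) (2 ^ j / R)).indicator (fun _ => (1 : ℝ)) x = 1 := by
    intro j hj
    have hm : x ∈ Icc (-((2 : ℝ) ^ j / R)) (2 ^ j / R) := abs_le.1 hj
    rw [Set.indicator_of_mem hm]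
  have hnn : ∀ j ∈ Finset.range (J + 1), (0 : ℝ) ≤ (1 / 4 : ℝ) ^ j *
      (Icc (-((2 : ℝ) ^ j / R)) (2 ^ j / R)).indicator (fun _ => (1 : ℝ)) x := by
    intro j _
    have hi : (0 : ℝ) ≤ (Icc (-((2 : ℝ) ^ j / R)) (2 ^ j / R)).indicator (fun _ => (1 : ℝ)) x :=
      Set.indicator_nonneg (fun _ _ => zero_le_one' ℝ) x
    positivity
  have hc0 : 0 ≤ (1 + 1 / β0 ^ 2) / (4 * R ^ 2) * (1 / (1 + x ^ 2)) := by positivity
  rcases le_or_gt |x| β0 with h | h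
  · have hex : ∃ j : ℕ, |x| ≤ 2 ^ j / R := ⟨J, by rw [hR]; field_simp; exact h⟩
    obtain ⟨j0, hj0, hmin⟩ : ∃ j0 : ℕ, |x| ≤ 2 ^ j0 / R ∧ ∀ j < j0, ¬ |x| ≤ 2 ^ j / R :=
      ⟨Nat.find hex, Nat.find_spec hex, fun j hj => Nat.find_min hex hj⟩
    have hjJ : j0 ≤ J := by
      by_contra hcon
      push Not at hcon
      exact hmin J hcon (by rw [hR]; field_simp; exact h)
    have h1 : (1 / 4 : ℝ) ^ j0 * (Icc (-((2 : ℝ) ^ j0 / R)) (2 ^ j0 / R)).indicator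
        (fun _ => (1 : ℝ)) x ≤ ∑ j ∈ Finset.range (J + 1), (1 / 4 : ℝ) ^ j *
      (Icc (-((2 : ℝ) ^ j / R)) (2 ^ j / R)).indicator (fun _ => (1 : ℝ)) x :=
      Finset.single_le_sum (f := fun j : ℕ => (1 / 4 : ℝ) ^ j *
        (Icc (-((2 : ℝ) ^ j / R)) (2 ^ j / R)).indicator (fun _ => (1 : ℝ)) x) hnn
        (Finset.mem_range.2 (by omega))
    rw [hind j0 hj0, mul_one] at h1
    have h2 : fl (tr R) x ≤ (1 / 4 : ℝ) ^ j0 := by
      rcases Nat.eq_zero_or_pos j0 with hz | hz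
      · rw [hz, pow_zero]; exact fl_tr_le_one hR0 x
      · obtain ⟨i, rfl⟩ : ∃ i, j0 = i + 1 := ⟨j0 - 1, by omega⟩
        have h3 := hmin i (by omega)
        push Not at h3
        refine (fl_tr_le_sq hR0 hx).trans ?_
        have h4 : (4 : ℝ) ^ i ≤ (R * x) ^ 2 := by
          have h5 : (2 : ℝ) ^ i ≤ R * |x| := by
            rw [div_lt_iff₀ hR0] at h3
            linarith
          have h6 : (R * x) ^ 2 = (R * |x|) ^ 2 := by rw [mul_pow, mul_pow, sq_abs]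
          rw [h6]
          calc (4 : ℝ) ^ i = ((2 : ℝ) ^ i) ^ 2 := by
                rw [← pow_mul, mul_comm, pow_mul]; norm_num
            _ ≤ _ := pow_le_pow_left₀ (by positivity) h5 2
        have h7 : (4 : ℝ) ^ (i + 1) = 4 * 4 ^ i := by ring
        rw [one_div_pow, h7]
        apply one_div_le_one_div_of_le (by positivity)
        linarith
    linarith
  · have h1 := Finset.sum_nonneg hnn
    have h2 : fl (tr R) x ≤ (1 + 1 / β0 ^ 2) / (4 * R ^ 2) * (1 / (1 + x ^ 2)) := by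
      refine (fl_tr_le_sq hR0 hx).trans ?_
      have h3 : β0 ^ 2 ≤ x ^ 2 := by
        rw [← sq_abs x]; exact pow_le_pow_left₀ hβ.le h.le 2
      have hx2 : 0 < x ^ 2 := by positivity
      rw [mul_one_div, div_div, div_le_div_iff₀ (by positivity) (by positivity)]
      have h4 : 1 ≤ x ^ 2 / β0 ^ 2 := by rwa [one_le_div (by positivity)]
      have h5 : (1 + 1 / β0 ^ 2) * (4 * (R * x) ^ 2) = 4 * R ^ 2 * (x ^ 2 + x ^ 2 / β0 ^ 2) := by
        field_simp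
      rw [h5]
      have : 0 < R ^ 2 := by positivity
      nlinarith
    linarith

/-- the pairing with the tent, from above -/
theorem S_up {κ β0 : ℝ} (hκ : 0 ≤ κ) (hβ : 0 < β0) (hl : l ≤ atTop)
    (hrep : ∀ β : ℝ, 0 < β → β ≤ β0 → ∀ ε : ℝ, 0 < ε → ∀ᶠ T in l,
      (Mp T).real (Icc (-β) β) ≤ 1 + κ * β + ε) :
    ∃ C : ℝ, 0 ≤ C ∧ ∀ J : ℕ, ∀ R : ℝ, R = 2 ^ J / β0 → ∀ ε : ℝ, 0 < ε → ∀ᶠ T in l,
      ∫ x, fl (tr R) x ∂(Mp T) ≤ 1 + 3 * κ / R + C / R ^ 2 + ε := by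
  obtain ⟨C0, hC0, hB⟩ := Mp_bdd
  have hD := DD_nonneg 0
  refine ⟨(1 + 1 / β0 ^ 2) / 4 * (2 * C0 * DD 0), by positivity, fun J R hR ε hε => ?_⟩
  have hR0 : 0 < R := by rw [hR]; positivity
  obtain ⟨e, he⟩ : ∃ e : ℝ, e = ε / 8 := ⟨_, rfl⟩
  have he0 : 0 < e := by rw [he]; positivity
  have hbj : ∀ j ∈ Finset.range (J + 1), (0 : ℝ) < 2 ^ j / R ∧ (2 : ℝ) ^ j / R ≤ β0 := by
    intro j hj
    have hj' : j ≤ J := by have := Finset.mem_range.1 hj; omega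
    refine ⟨by positivity, ?_⟩
    rw [div_le_iff₀ hR0, hR, mul_div_cancel₀ _ hβ.ne']
    exact pow_le_pow_right₀ (by norm_num) hj'
  have hev : ∀ᶠ T in l, ∀ j ∈ Finset.range (J + 1),
      (Mp T).real (Icc (-(2 ^ j / R)) (2 ^ j / R)) ≤ 1 + κ * (2 ^ j / R) + e := by
    rw [Filter.eventually_all_finset]
    intro j hj
    exact hrep _ (hbj j hj).1 (hbj j hj).2 e he0
  filter_upwards [hev, hl (Mp_zero he0), hl hB, hl (eventually_ge_atTop 10)] with T h1 h2 h3 hT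
  have hfin := Mp_fin T
  have hm0 : (Mp T).real {0} ≤ 1 + κ / R + e := by
    have h4 := h1 0 (Finset.mem_range.2 (by omega))
    rw [pow_zero, mul_one_div] at h4
    refine le_trans (measureReal_mono ?_) h4
    intro x hx
    rw [mem_singleton_iff] at hx
    rw [hx]
    exact ⟨by have : (0:ℝ) < 1 / R := by positivity
              linarith, by positivity⟩
  have hint : Integrable (fl (tr R)) (Mp T) :=
    Bdd.integrable (by linarith) h3 (fl_cont (tr_int hR0)) (fl_qd (adm_tr hR0))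
  obtain ⟨hi1, hi2⟩ := inv_int (by linarith) h3
  have hms : MeasurableSet ({0} : Set ℝ) := measurableSet_singleton 0
  have hsplit : ∫ x, fl (tr R) x ∂(Mp T) =
      (Mp T).real {0} + ∫ x in ({0} : Set ℝ)ᶜ, fl (tr R) x ∂(Mp T) := by
    rw [← integral_add_compl hms hint, integral_singleton, fl_tr_zero hR0]
    simp
  have hii : ∀ j : ℕ, Integrable ((Icc (-((2 : ℝ) ^ j / R)) (2 ^ j / R)).indicator
      (fun _ => (1 : ℝ))) ((Mp T).restrict ({0} : Set ℝ)ᶜ) := fun j =>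
    (integrable_const (1 : ℝ)).indicator measurableSet_Icc
  have hsum : Integrable (fun x => ∑ j ∈ Finset.range (J + 1), (1 / 4 : ℝ) ^ j *
      (Icc (-((2 : ℝ) ^ j / R)) (2 ^ j / R)).indicator (fun _ => (1 : ℝ)) x)
      ((Mp T).restrict ({0} : Set ℝ)ᶜ) :=
    integrable_finsetSum _ fun j _ => (hii j).const_mul _
  have hle : ∫ x in ({0} : Set ℝ)ᶜ, fl (tr R) x ∂(Mp T) ≤
      ∫ x in ({0} : Set ℝ)ᶜ, ((∑ j ∈ Finset.range (J + 1), (1 / 4 : ℝ) ^ j *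
      (Icc (-(2 ^ j / R)) (2 ^ j / R)).indicator (fun _ => (1 : ℝ)) x) +
      (1 + 1 / β0 ^ 2) / (4 * R ^ 2) * (1 / (1 + x ^ 2))) ∂(Mp T) := by
    refine setIntegral_mono_on hint.integrableOn (hsum.add (hi1.integrableOn.const_mul _))
      hms.compl fun x hx => ?_
    exact majorant hβ J hR hx
  rw [integral_add hsum (hi1.integrableOn.const_mul _), integral_finsetSum _
    (fun j _ => (hii j).const_mul _), integral_const_mul] at hle
  have hterm : ∀ j ∈ Finset.range (J + 1), ∫ x in ({0} : Set ℝ)ᶜ, (1 / 4 : ℝ) ^ j *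
      (Icc (-((2 : ℝ) ^ j / R)) (2 ^ j / R)).indicator (fun _ => (1 : ℝ)) x ∂(Mp T) ≤
      (κ / R + 2 * e) * (1 / 2) ^ j := by
    intro j hj
    have hbp := (hbj j hj).1
    rw [integral_const_mul, setIntegral_indicator measurableSet_Icc, setIntegral_const, smul_eq_mul,
      mul_one]
    have e1 : (Mp T).real (({0} : Set ℝ)ᶜ ∩ Icc (-(2 ^ j / R)) (2 ^ j / R)) =
        (Mp T).real (Icc (-(2 ^ j / R)) (2 ^ j / R)) - (Mp T).real {0} := by
      have h5 : ({0} : Set ℝ)ᶜ ∩ Icc (-((2 : ℝ) ^ j / R)) (2 ^ j / R) =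
          Icc (-((2 : ℝ) ^ j / R)) (2 ^ j / R) \ {0} := by
        ext x; simp only [mem_inter_iff, Set.mem_sdiff, mem_compl_iff]; tauto
      rw [h5, measureReal_sdiff (by
        intro x hx
        rw [mem_singleton_iff] at hx
        rw [hx]
        exact ⟨by linarith, hbp.le⟩) hms]
    rw [e1]
    have h6 := h1 j hj
    have h7 : (Mp T).real (Icc (-(2 ^ j / R)) (2 ^ j / R)) - (Mp T).real {0} ≤
        κ * (2 ^ j / R) + 2 * e := by linarith
    calc (1 / 4 : ℝ) ^ j * ((Mp T).real (Icc (-(2 ^ j / R)) (2 ^ j / R)) - (Mp T).real {0}) ≤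
          (1 / 4 : ℝ) ^ j * (κ * (2 ^ j / R) + 2 * e) := by gcongr
      _ = κ / R * ((1 / 4 : ℝ) ^ j * 2 ^ j) + 2 * e * (1 / 4 : ℝ) ^ j := by ring
      _ = κ / R * (1 / 2 : ℝ) ^ j + 2 * e * (1 / 4 : ℝ) ^ j := by
          rw [← mul_pow]; norm_num
      _ ≤ κ / R * (1 / 2 : ℝ) ^ j + 2 * e * (1 / 2 : ℝ) ^ j := by
          gcongr
          norm_num
      _ = _ := by ring
  have h8 := Finset.sum_le_sum hterm
  rw [← Finset.mul_sum] at h8
  have h9 : ∑ j ∈ Finset.range (J + 1), (1 / 2 : ℝ) ^ j ≤ 2 := sum_geometric_two_le _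
  have h10 : (κ / R + 2 * e) * ∑ j ∈ Finset.range (J + 1), (1 / 2 : ℝ) ^ j ≤
      (κ / R + 2 * e) * 2 := by gcongr
  have h11 : ∫ x in ({0} : Set ℝ)ᶜ, 1 / (1 + x ^ 2) ∂(Mp T) ≤ 2 * C0 * DD 0 :=
    (setIntegral_le_integral hi1 (ae_of_all _ fun x => by
      show (0 : ℝ) ≤ 1 / (1 + x ^ 2)
      positivity)).trans hi2
  have h12 : (1 + 1 / β0 ^ 2) / (4 * R ^ 2) * ∫ x in ({0} : Set ℝ)ᶜ, 1 / (1 + x ^ 2) ∂(Mp T) ≤
      (1 + 1 / β0 ^ 2) / (4 * R ^ 2) * (2 * C0 * DD 0) := by gcongr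
  have h13 : (1 + 1 / β0 ^ 2) / (4 * R ^ 2) * (2 * C0 * DD 0) =
      (1 + 1 / β0 ^ 2) / 4 * (2 * C0 * DD 0) / R ^ 2 := by
    field_simp
  have h14 : 3 * κ / R = κ / R + κ / R * 2 := by ring
  rw [hsplit, h14, ← h13]
  linarith

end Pool.Agent.N805.FL
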