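import Pool.Agent.N805.FL

/-! # Lower bounds for the means of the form factor, repulsion, and pair correlation: the key step -/

set_option autoImplicit false

open MeasureTheory Set Filter Topology
open scoped NNReal ENNReal

namespace Pool.Agent.N805.FL

open Pool.Agent.Y749.Rig

variable {l : Filter ℝ}

/-- the value of the constant for the tent -/
lemma cc_tr {c : ℝ} (hc : 0 < c) : cc (tr c) = 1 / c + c / 3 := by
  unfold cc
  have e1 : tr c 0 = 1 / c := by unfold tr; simp
  rw [e1]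
  congr 1
  rw [int_supp hc (fun x hx => by rw [tr_supp hc x hx, mul_zero])]
  have hcont : Continuous fun α => |α| * tr c α := by have := tr_cont c; fun_prop
  rw [← intervalIntegral.integral_add_adjacent_intervals (b := 0) (hcont.intervalIntegrable _ _)
    (hcont.intervalIntegrable _ _)]
  have h5 : ∫ α in (-c)..0, |α| * tr c α = ∫ α in (0 : ℝ)..c, |α| * tr c α := by
    have := intervalIntegral.integral_comp_neg (a := (0 : ℝ)) (b := c) (fun α => |α| * tr c α)
    rw [neg_zero] at this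
    rw [← this]
    refine intervalIntegral.integral_congr fun α _ => ?_
    simp only [abs_neg, tr_even]
  have h6 : ∫ α in (0 : ℝ)..c, |α| * tr c α = ∫ α in (0 : ℝ)..c, (1 / c * α - 1 / c ^ 2 * α ^ 2) := by
    refine intervalIntegral.integral_congr fun α hα => ?_
    rw [uIcc_of_le hc.le] at hα
    rw [tr_eq hc hα.1 hα.2, abs_of_nonneg hα.1]
    field_simp
  rw [h5, h6, intervalIntegral.integral_sub (by
    apply Continuous.intervalIntegrable; fun_prop) (by
    apply Continuous.intervalIntegrable; fun_prop), intervalIntegral.integral_const_mul,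
    intervalIntegral.integral_const_mul, integral_id, integral_pow]
  field_simp
  ring

/-- the pairing with the tent of slope one -/
noncomputable def HT (T c : ℝ) : ℝ := c ^ 2 * ∫ α, tr c α * Fr T α

lemma HT_lim (RH : RiemannHypothesis) {c : ℝ} (h0 : 0 < c) (h1 : c < 1) :
    Tendsto (fun T => HT T c) atTop (𝓝 (c + c ^ 3 / 3)) := by
  have h := (Fr_lim (tr_int h0) (fl_qd (adm_tr h0)) le_rfl
    (test_limRH RH (adm_tr h0) h0 h1)).const_mul (c ^ 2)
  rw [cc_tr h0] at h
  have e : c ^ 2 * (1 / c + c / 3) = c + c ^ 3 / 3 := by field_simp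
  rwa [e] at h

lemma HT_sub {T c c' : ℝ} (hT : 10 ≤ T) (h0 : 0 < c') (h1 : c' < c) :
    (c - c') * ∫ α in (-c')..c', Fr T α ≤ HT T c - HT T c' ∧
      HT T c - HT T c' ≤ (c - c') * ∫ α in (-c)..c, Fr T α := by
  have hc : 0 < c := h0.trans h1
  have hFc := Fr_cont T
  have hF0 := Fr_nonneg hT
  obtain ⟨g, hg⟩ : ∃ g : ℝ → ℝ, ∀ α, g α = max 0 (c - |α|) - max 0 (c' - |α|) := ⟨_, fun _ => rfl⟩
  have hgc : Continuous g := by
    have : g = fun α => max 0 (c - |α|) - max 0 (c' - |α|) := funext hg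
    rw [this]; fun_prop
  have i1 : ∀ {h : ℝ}, 0 < h → Integrable fun α => tr h α * Fr T α := by
    intro h hh
    exact Continuous.integrable_of_hasCompactSupport ((tr_cont h).mul hFc)
      ((adm_tr hh).hcs.mul_right)
  have e1 : HT T c - HT T c' = ∫ α, g α * Fr T α := by
    unfold HT
    rw [← integral_const_mul, ← integral_const_mul, ← integral_sub ((i1 hc).const_mul _)
      ((i1 h0).const_mul _)]
    refine integral_congr_ae (ae_of_all _ fun α => ?_)
    simp only
    rw [hg, ← tent_eq hc, ← tent_eq h0]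
    ring
  have hgz : ∀ x, c ≤ |x| → g x = 0 := by
    intro x hx
    rw [hg, max_eq_left (by linarith), max_eq_left (by linarith)]
    ring
  have hg0 : ∀ x, 0 ≤ g x := by
    intro x
    rw [hg]
    have : max 0 (c' - |x|) ≤ max 0 (c - |x|) := max_le_max le_rfl (by linarith)
    linarith
  have hg1 : ∀ x, g x ≤ c - c' := by
    intro x
    rw [hg]
    have h2 : max 0 (c - |x|) ≤ max 0 (c' - |x|) + (c - c') := by
      apply max_le
      · have := le_max_left 0 (c' - |x|)
        linarith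
      · have := le_max_right 0 (c' - |x|)
        linarith
    linarith
  have hg2 : ∀ x, |x| ≤ c' → g x = c - c' := by
    intro x hx
    rw [hg, max_eq_right (by linarith), max_eq_right (by linarith)]
    ring
  have hci : ∀ p q : ℝ, IntervalIntegrable (fun α => g α * Fr T α) volume p q :=
    fun p q => (hgc.mul hFc).intervalIntegrable p q
  have e2 : ∫ α, g α * Fr T α = ∫ α in (-c)..c, g α * Fr T α :=
    int_supp hc fun x hx => by rw [hgz x hx, zero_mul]
  rw [e1, e2]
  constructor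
  · rw [← intervalIntegral.integral_const_mul]
    have e3 : ∫ α in (-c')..c', (c - c') * Fr T α = ∫ α in (-c')..c', g α * Fr T α := by
      refine intervalIntegral.integral_congr fun x hx => ?_
      rw [uIcc_of_le (by linarith)] at hx
      rw [hg2 x (abs_le.2 hx)]
    rw [e3]
    exact intervalIntegral.integral_mono_interval (by linarith) (by linarith) h1.le
      (ae_of_all _ fun x => mul_nonneg (hg0 x) (hF0 x)) (hci _ _)
  · rw [← intervalIntegral.integral_const_mul]
    refine intervalIntegral.integral_mono_on (by linarith) (hci _ _)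
      ((continuous_const.mul hFc).intervalIntegrable _ _) fun x _ => ?_
    exact mul_le_mul_of_nonneg_right (hg1 x) (hF0 x)

/-- Montgomery's theorem for symmetric windows -/
theorem mont (RH : RiemannHypothesis) {c : ℝ} (h0 : 0 < c) (h1 : c < 1) :
    Tendsto (fun T => ∫ α in (-c)..c, Fr T α) atTop (𝓝 (1 + c ^ 2)) := by
  rw [tendsto_order]
  constructor
  · intro v hv
    obtain ⟨h, hh⟩ : ∃ h : ℝ, h = min (c / 2) ((1 + c ^ 2 - v) / 2) := ⟨_, rfl⟩
    have hh0 : 0 < h := by rw [hh]; exact lt_min (by positivity) (by linarith)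
    have hh1 : h ≤ c / 2 := by rw [hh]; exact min_le_left _ _
    have hh2 : h ≤ (1 + c ^ 2 - v) / 2 := by rw [hh]; exact min_le_right _ _
    have hlim := (HT_lim RH h0 h1).sub (HT_lim RH (c := c - h) (by linarith) (by linarith))
    have hev := hlim.eventually (lt_mem_nhds (show h * v < c + c ^ 3 / 3 -
      (c - h + (c - h) ^ 3 / 3) by nlinarith [mul_pos hh0 h0, mul_pos hh0 hh0]))
    filter_upwards [hev, eventually_ge_atTop 10] with T h2 hT
    have h3 := (HT_sub hT (c := c) (c' := c - h) (by linarith) (by linarith)).2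
    rw [sub_sub_cancel] at h3
    exact lt_of_mul_lt_mul_left (h2.trans_le h3) hh0.le
  · intro u hu
    obtain ⟨h, hh⟩ : ∃ h : ℝ, h = min ((1 - c) / 2) ((u - (1 + c ^ 2)) / 4) := ⟨_, rfl⟩
    have hh0 : 0 < h := by rw [hh]; exact lt_min (by linarith) (by linarith)
    have hh1 : h ≤ (1 - c) / 2 := by rw [hh]; exact min_le_left _ _
    have hh2 : h ≤ (u - (1 + c ^ 2)) / 4 := by rw [hh]; exact min_le_right _ _
    have hlim := (HT_lim RH (c := c + h) (by linarith) (by linarith)).sub (HT_lim RH h0 h1)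
    have hev := hlim.eventually (gt_mem_nhds (show c + h + (c + h) ^ 3 / 3 -
      (c + c ^ 3 / 3) < h * u by
        nlinarith [mul_pos hh0 h0, mul_pos hh0 hh0, mul_pos (mul_pos hh0 hh0) hh0]))
    filter_upwards [hev, eventually_ge_atTop 10] with T h2 hT
    have h3 := (HT_sub hT (c := c + h) (c' := c) h0 (by linarith)).1
    rw [add_sub_cancel_left] at h3
    exact lt_of_mul_lt_mul_left (h3.trans_lt h2) hh0.le

lemma gauss (n : ℕ) : ∑ k ∈ Finset.range n, (k : ℝ) = n * (n - 1) / 2 := by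
  induction n with
  | zero => simp
  | succ n ih => rw [Finset.sum_range_succ, ih]; push_cast; ring

/-- lower bounds for the means give the lower bound for the pairing with the tent -/
lemma low_tent (hl : l ≤ atTop) {b R : ℝ} (hb : 1 ≤ b) (hbR : b < R)
    (hlow : ∀ a' b' : ℝ, b ≤ a' → a' < b' → b' ≤ R → ∀ ε : ℝ, 0 < ε → ∀ᶠ T in l,
      (b' - a') - ε ≤ ∫ α in a'..b', Fr T α) {ε : ℝ} (hε : 0 < ε) :
    ∀ᶠ T in l, (R - b) ^ 2 / (2 * R ^ 2) - ε ≤ ∫ α in b..R, tr R α * Fr T α := by
  have hR0 : 0 < R := by linarith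
  obtain ⟨n, hn⟩ := exists_nat_gt ((R - b) ^ 2 / (2 * R ^ 2) / (ε / 2) + 1)
  have hn1 : (1 : ℝ) < n := by
    have : 0 ≤ (R - b) ^ 2 / (2 * R ^ 2) / (ε / 2) := by positivity
    linarith
  have hn0 : (0 : ℝ) < n := by linarith
  have hn2 : (R - b) ^ 2 / (2 * R ^ 2) / n ≤ ε / 2 := by
    rw [div_le_iff₀ hn0]
    have : (R - b) ^ 2 / (2 * R ^ 2) / (ε / 2) < n := by linarith
    rw [div_lt_iff₀ (by positivity)] at this
    linarith
  obtain ⟨Δ, hΔ⟩ : ∃ Δ : ℝ, Δ = (R - b) / n := ⟨_, rfl⟩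
  have hΔ0 : 0 < Δ := by rw [hΔ]; exact div_pos (by linarith) hn0
  have hnΔ : n * Δ = R - b := by rw [hΔ]; field_simp
  obtain ⟨x, hx⟩ : ∃ x : ℕ → ℝ, ∀ k, x k = b + k * Δ := ⟨_, fun k => rfl⟩
  have hx0 : x 0 = b := by rw [hx]; simp
  have hxn : x n = R := by rw [hx, hnΔ]; ring
  have hxs : ∀ k, x (k + 1) = x k + Δ := by
    intro k
    rw [hx, hx]; push_cast; ring
  have hxa : ∀ k, b ≤ x k := by
    intro k
    rw [hx]
    have : (0 : ℝ) ≤ k * Δ := by positivity
    linarith
  have hxb : ∀ k, k ≤ n → x k ≤ R := by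
    intro k hk
    rw [← hxn, hx, hx]
    have : (k : ℝ) ≤ n := by exact_mod_cast hk
    have := mul_le_mul_of_nonneg_right this hΔ0.le
    linarith
  obtain ⟨e, he⟩ : ∃ e : ℝ, e = ε / (2 * n) := ⟨_, rfl⟩
  have he0 : 0 < e := by rw [he]; positivity
  have hev : ∀ᶠ T in l, ∀ k ∈ Finset.range n, Δ - e ≤ ∫ α in (x k)..(x (k + 1)), Fr T α := by
    rw [Filter.eventually_all_finset]
    intro k hk
    rw [Finset.mem_range] at hk
    have := hlow (x k) (x (k + 1)) (hxa k) (by rw [hxs]; linarith) (hxb (k + 1) hk) e he0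
    filter_upwards [this] with T hT
    rw [hxs] at hT ⊢
    linarith
  filter_upwards [hev, hl (eventually_ge_atTop 10)] with T h1 hT
  have hFc := Fr_cont T
  have hF0 := Fr_nonneg hT
  have htc := tr_cont R
  have c1 : Continuous fun α => tr R α * Fr T α := htc.mul hFc
  have s1 : ∑ k ∈ Finset.range n, ∫ α in (x k)..(x (k + 1)), tr R α * Fr T α =
      ∫ α in b..R, tr R α * Fr T α := by
    rw [intervalIntegral.sum_integral_adjacent_intervals fun k _ => c1.intervalIntegrable _ _,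
      hx0, hxn]
  have key : ∀ k ∈ Finset.range n, ((n - 1 : ℝ) - k) * (Δ ^ 2 / R ^ 2) - e ≤
      ∫ α in (x k)..(x (k + 1)), tr R α * Fr T α := by
    intro k hk
    have hk' := Finset.mem_range.1 hk
    have hle : x k ≤ x (k + 1) := by rw [hxs]; linarith
    have hxR := hxb (k + 1) hk'
    have hx1 := hxa (k + 1)
    have htr : tr R (x (k + 1)) = ((n - 1 : ℝ) - k) * Δ / R ^ 2 := by
      rw [tr_eq hR0 (by linarith) hxR]
      have h2 : R - x (k + 1) = ((n - 1 : ℝ) - k) * Δ := by
        rw [hx]; push_cast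
        have : R = b + n * Δ := by linarith
        rw [this]; ring
      rw [← h2]
      field_simp
    have htr0 : 0 ≤ tr R (x (k + 1)) := tr_nonneg hR0 _
    have htr1 : tr R (x (k + 1)) ≤ 1 := by
      rw [tr_eq hR0 (by linarith) hxR, div_le_one hR0]
      have : 0 ≤ x (k + 1) / R := div_nonneg (by linarith) hR0.le
      linarith
    have h3 := h1 k hk
    calc ((n - 1 : ℝ) - k) * (Δ ^ 2 / R ^ 2) - e ≤ tr R (x (k + 1)) * (Δ - e) := by
          have : tr R (x (k + 1)) * Δ = ((n - 1 : ℝ) - k) * (Δ ^ 2 / R ^ 2) := by rw [htr]; ring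
          rw [mul_sub, this]
          nlinarith
      _ ≤ tr R (x (k + 1)) * ∫ α in (x k)..(x (k + 1)), Fr T α :=
          mul_le_mul_of_nonneg_left h3 htr0
      _ = ∫ α in (x k)..(x (k + 1)), tr R (x (k + 1)) * Fr T α :=
          (intervalIntegral.integral_const_mul _ _).symm
      _ ≤ _ := by
          refine intervalIntegral.integral_mono_on hle
            ((continuous_const.mul hFc).intervalIntegrable _ _) (c1.intervalIntegrable _ _)
            fun y hy => ?_
          apply mul_le_mul_of_nonneg_right _ (hF0 y)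
          have hy0 : 0 ≤ y := by linarith [hy.1, hxa k]
          rw [tr_eq hR0 hy0 (hy.2.trans hxR), tr_eq hR0 (by linarith) hxR]
          have h4 : y / R ≤ x (k + 1) / R := by gcongr; exact hy.2
          have h5 : (1 - x (k + 1) / R) / R ≤ (1 - y / R) / R := by gcongr
          exact h5
  have h2 := Finset.sum_le_sum key
  rw [s1, Finset.sum_sub_distrib, ← Finset.sum_mul, Finset.sum_sub_distrib, gauss, Finset.sum_const,
    Finset.sum_const, Finset.card_range, nsmul_eq_mul, nsmul_eq_mul] at h2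
  have e1 : ((n : ℝ) * (n - 1) - n * (n - 1) / 2) * (Δ ^ 2 / R ^ 2) =
      (R - b) ^ 2 / (2 * R ^ 2) - (R - b) ^ 2 / (2 * R ^ 2) / n := by
    rw [← hnΔ]
    field_simp
    ring
  have e2 : (n : ℝ) * e = ε / 2 := by rw [he]; field_simp
  rw [e1, e2] at h2
  linarith

/-- **the key step** -/
theorem up_key (RH : RiemannHypothesis) (hl : l ≤ atTop) {κ β0 : ℝ} (hκ : 0 ≤ κ) (hβ : 0 < β0)
    (hrep : ∀ β : ℝ, 0 < β → β ≤ β0 → ∀ ε : ℝ, 0 < ε → ∀ᶠ T in l,
      (Mp T).real (Icc (-β) β) ≤ 1 + κ * β + ε)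
    (hlow : ∀ a' b' : ℝ, 1 ≤ a' → a' < b' → ∀ ε : ℝ, 0 < ε → ∀ᶠ T in l,
      (b' - a') - ε ≤ ∫ α in a'..b', Fr T α)
    {a b : ℝ} (ha : 0 < a) (ha1 : a < 1) (hb : 1 ≤ b) {ε : ℝ} (hε : 0 < ε) :
    ∀ᶠ T in l, ∫ α in a..b, Fr T α ≤ b - 1 / 2 - a ^ 2 / 2 + 3 * κ / 2 + ε := by
  obtain ⟨C, hC, hS⟩ := S_up hκ hβ hl hrep
  obtain ⟨V, hV⟩ : ∃ V : ℝ, V = 2 * b - 1 - a ^ 2 + 3 * κ := ⟨_, rfl⟩
  have hV0 : 0 < V := by rw [hV]; nlinarith
  obtain ⟨J, hJ⟩ := pow_unbounded_of_one_lt ((b + 1 + (b * V + C + 3) / (2 * ε)) * β0)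
    (show (1 : ℝ) < 2 by norm_num)
  obtain ⟨R, hR⟩ : ∃ R : ℝ, R = 2 ^ J / β0 := ⟨_, rfl⟩
  have hq : 0 < (b * V + C + 3) / (2 * ε) := by positivity
  have hRb : b + 1 + (b * V + C + 3) / (2 * ε) < R := by
    rw [hR, lt_div_iff₀ hβ]; exact hJ
  have hR1 : 1 ≤ R := by linarith
  have hR0 : 0 < R := by linarith
  have hbR : b < R := by linarith
  obtain ⟨e, he⟩ : ∃ e : ℝ, e = 1 / (4 * R ^ 2) := ⟨_, rfl⟩
  have he0 : 0 < e := by rw [he]; positivity
  have heR : 4 * (e * R ^ 2) = 1 := by rw [he]; field_simp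
  obtain ⟨C0, hC0, hB⟩ := Mp_bdd
  have hlt := low_tent hl hb hbR (fun a' b' h1 h2 _ => hlow a' b' (hb.trans h1) h2) he0
  have hm := (mont RH ha ha1).eventually (lt_mem_nhds (show 1 + a ^ 2 - e < 1 + a ^ 2 by linarith))
  filter_upwards [hS J R hR e he0, hlt, hl hm, hl hB, hl (eventually_ge_atTop 10)]
    with T h1 h2 h3 hBT hT
  have hfin := Mp_fin T
  have hFc := Fr_cont T
  have hF0 := Fr_nonneg hT
  have htc := tr_cont R
  have htn : ∀ x, 0 ≤ tr R x := fun x => tr_nonneg hR0 x
  have c1 : Continuous fun α => tr R α * Fr T α := htc.mul hFc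
  have hci : ∀ {g : ℝ → ℝ}, Continuous g → ∀ p q : ℝ, IntervalIntegrable g volume p q :=
    fun hg p q => hg.intervalIntegrable p q
  have d0 : ∫ α, tr R α * Fr T α ≤ 1 + 3 * κ / R + C / R ^ 2 + e := by
    refine le_trans ?_ h1
    rw [Fr_pair (tr_int hR0)]
    have hint : Integrable (fl (tr R)) (Mp T) :=
      Bdd.integrable (by linarith) hBT (fl_cont (tr_int hR0)) (fl_qd (adm_tr hR0))
    refine integral_mono ?_ hint fun x => ?_
    · refine hint.mul_bdd (c := 1) ?_ (ae_of_all _ fun x => ?_)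
      · have := ww_cont
        apply Continuous.aestronglyMeasurable
        fun_prop
      · rw [Real.norm_eq_abs, abs_of_pos (ww_pos _)]
        exact ww_le _
    · have h4 := fl_tr_nonneg hR0 x
      have h5 := ww_le (2 * Real.pi * x / Real.log T)
      simp only
      nlinarith
  have d1 : ∫ α, tr R α * Fr T α = (∫ α in (-a)..a, tr R α * Fr T α) +
      2 * ((∫ α in a..b, tr R α * Fr T α) + ∫ α in b..R, tr R α * Fr T α) := by
    rw [int_supp hR0 (fun x hx => by rw [tr_supp hR0 x hx, zero_mul])]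
    rw [intervalIntegral.integral_add_adjacent_intervals (hci c1 _ _) (hci c1 _ _)]
    rw [← intervalIntegral.integral_add_adjacent_intervals (a := -R) (b := -a) (c := R)
      (hci c1 _ _) (hci c1 _ _), ← intervalIntegral.integral_add_adjacent_intervals (a := -a)
      (b := a) (c := R) (hci c1 _ _) (hci c1 _ _)]
    have : ∫ α in (-R)..(-a), tr R α * Fr T α = ∫ α in a..R, tr R α * Fr T α := by
      have h6 := intervalIntegral.integral_comp_neg (a := a) (b := R)
        (fun α => tr R α * Fr T α)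
      rw [← h6]
      refine intervalIntegral.integral_congr fun α _ => ?_
      rw [tr_even, Fr_even]
    rw [this]
    ring
  have d2 : (R - a) / R ^ 2 * (1 + a ^ 2 - e) ≤ ∫ α in (-a)..a, tr R α * Fr T α := by
    have hw : (R - a) / R ^ 2 = tr R a := by
      rw [tr_eq hR0 ha.le (by linarith)]
      field_simp
    rw [hw]
    calc tr R a * (1 + a ^ 2 - e) ≤ tr R a * ∫ α in (-a)..a, Fr T α :=
          mul_le_mul_of_nonneg_left h3.le (htn a)
      _ = ∫ α in (-a)..a, tr R a * Fr T α := (intervalIntegral.integral_const_mul _ _).symm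
      _ ≤ _ := by
          refine intervalIntegral.integral_mono_on (by linarith) (hci (continuous_const.mul hFc) _ _)
            (hci c1 _ _) fun y hy => ?_
          apply mul_le_mul_of_nonneg_right _ (hF0 y)
          have hy1 : |y| ≤ a := abs_le.2 hy
          unfold tr
          rw [abs_of_pos ha]
          have h5 : |y| / R ≤ a / R := by gcongr
          gcongr
  have d3 : (R - b) / R ^ 2 * ∫ α in a..b, Fr T α ≤ ∫ α in a..b, tr R α * Fr T α := by
    have hw : (R - b) / R ^ 2 = tr R b := by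
      rw [tr_eq hR0 (by linarith) hbR.le]
      field_simp
    rw [hw, ← intervalIntegral.integral_const_mul]
    refine intervalIntegral.integral_mono_on (by linarith) (hci (continuous_const.mul hFc) _ _)
      (hci c1 _ _) fun y hy => ?_
    apply mul_le_mul_of_nonneg_right _ (hF0 y)
    have hy0 : 0 ≤ y := by linarith [hy.1]
    rw [tr_eq hR0 hy0 (by linarith [hy.2]), tr_eq hR0 (by linarith) hbR.le]
    have h4 : y / R ≤ b / R := by gcongr; exact hy.2
    have h5 : (1 - b / R) / R ≤ (1 - y / R) / R := by gcongr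
    exact h5
  obtain ⟨I, hI⟩ : ∃ I : ℝ, I = ∫ α in a..b, Fr T α := ⟨_, rfl⟩
  rw [← hI] at d3 ⊢
  have hR2 : 0 < R ^ 2 := by positivity
  have m1 : (R - a) / R ^ 2 * (1 + a ^ 2 - e) + 2 * ((R - b) / R ^ 2 * I +
      ((R - b) ^ 2 / (2 * R ^ 2) - e)) ≤ 1 + 3 * κ / R + C / R ^ 2 + e := by
    linarith
  have m2 := mul_le_mul_of_nonneg_right m1 hR2.le
  have m3 : ((R - a) / R ^ 2 * (1 + a ^ 2 - e) + 2 * ((R - b) / R ^ 2 * I +
      ((R - b) ^ 2 / (2 * R ^ 2) - e))) * R ^ 2 =
      (R - a) * (1 + a ^ 2 - e) + 2 * (R - b) * I + (R - b) ^ 2 - 2 * (e * R ^ 2) := by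
    field_simp
    ring
  have m4 : (1 + 3 * κ / R + C / R ^ 2 + e) * R ^ 2 = R ^ 2 + 3 * κ * R + C + e * R ^ 2 := by
    field_simp
  rw [m3, m4] at m2
  have m5 : e * R ≤ e * R ^ 2 := by
    apply mul_le_mul_of_nonneg_left _ he0.le
    nlinarith
  have m6 : a * (1 + a ^ 2) ≤ 2 := by nlinarith
  have m7 : 2 * (R - b) * I ≤ R * V + C + 3 := by
    rw [hV]
    nlinarith [mul_pos ha he0]
  have m8 : b * V + C + 3 ≤ 2 * ε * (R - b) := by
    have h6 : (b * V + C + 3) / (2 * ε) ≤ R - b := by linarith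
    rw [div_le_iff₀ (by positivity)] at h6
    linarith
  have m9 : 2 * (R - b) * I ≤ 2 * (R - b) * (V / 2 + ε) := by nlinarith
  have m10 : I ≤ V / 2 + ε := le_of_mul_le_mul_left m9 (by linarith)
  rw [hV] at m10
  linarith

end Pool.Agent.N805.FL
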