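import Pool.Agent.Y749.Rig.FFf

/-! # Upper bounds for the means of the form factor with an excess -/

set_option autoImplicit false

open MeasureTheory Set Filter Topology
open scoped NNReal ENNReal

namespace Pool.Agent.N805.FL

open Pool.Agent.Y749.Rig

variable {l : Filter ℝ}

/-- **The excess of the form factor bounds its defect**: finite range -/
theorem quantw (RH : RiemannHypothesis) {l : Filter ℝ} (hl : l ≤ atTop) {R : ℝ} (hR : 1 ≤ R)
    {ω : ℝ → ℝ} (hωc : Continuous ω) (hω0 : ∀ x, 0 ≤ ω x) {Ω : ℝ}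
    (hΩ : ∫ α in (0 : ℝ)..R, ω α ≤ Ω)
    (hup : ∀ a b : ℝ, 0 < a → a < b → b ≤ R → ∀ ε : ℝ, 0 < ε → ∀ᶠ T in l,
      ∫ α in a..b, Fr T α ≤ (∫ α in a..b, (mn α + ω α)) + ε)
    {a b : ℝ} (ha : 0 < a) (hab : a < b) (hbR : b < R) {ε : ℝ} (hε : 0 < ε) :
    ∀ᶠ T in l, (∫ α in a..b, mn α) - 1 / (6 * (R - b)) - R / (R - b) * Ω - ε ≤
      ∫ α in a..b, Fr T α := by
  have hR0 : 0 < R := by linarith
  have hG0 : ∀ᶠ T in l, ∀ α, 0 ≤ Fr T α :=
    hl ((eventually_ge_atTop 10).mono fun T hT α => Fr_nonneg hT α)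
  obtain ⟨w0, hw0⟩ : ∃ w0 : ℝ, w0 = tr R b := ⟨_, rfl⟩
  have hw0' : w0 = (1 - b / R) / R := by rw [hw0, tr_eq hR0 (by linarith) hbR.le]
  have hw1 : 0 < w0 := by
    rw [hw0']
    have : b / R < 1 := by rwa [div_lt_one hR0]
    have : 0 < 1 - b / R := by linarith
    positivity
  obtain ⟨e, he⟩ : ∃ e : ℝ, e = ε * w0 / 8 := ⟨_, rfl⟩
  have he0 : 0 < e := by rw [he]; positivity
  have hmc : Continuous fun α => mn α + ω α := mn_cont.add hωc
  have hm0 : ∀ α, 0 ≤ mn α + ω α := fun α => add_nonneg (mn_nonneg α) (hω0 α)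
  -- near zero
  obtain ⟨δ0, hδ0, hnear⟩ := near0 RH (η := R * e) (by positivity)
  obtain ⟨δ, hδ⟩ : ∃ δ : ℝ, δ = min δ0 (a / 2) := ⟨_, rfl⟩
  have hδ1 : 0 < δ := by rw [hδ]; exact lt_min hδ0 (by positivity)
  have hδ2 : δ ≤ δ0 := by rw [hδ]; exact min_le_left _ _
  have hδ3 : δ < a := by
    have : δ ≤ a / 2 := by rw [hδ]; exact min_le_right _ _
    linarith
  have htc := tr_cont R
  have htn : ∀ x, 0 ≤ tr R x := fun x => tr_nonneg hR0 x
  have mk : ∀ a' b' : ℝ, 0 < a' → a' < b' → b' ≤ R → ∀ {f : ℝ → ℝ}, Continuous f →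
      (∀ x ∈ Icc a' b', 0 ≤ f x) → ∀ᶠ T in l,
      ∫ α in a'..b', f α * Fr T α ≤ (∫ α in a'..b', f α * (mn α + ω α)) + e := by
    intro a' b' h1 h2 h3 f hf hf0
    exact up_weight (fun T => Fr_cont T) hG0 hmc hm0 h2
      (fun a'' b'' g1 g2 g3 => hup a'' b'' (h1.trans_le g1) g2 (g3.trans h3)) hf hf0 he0
  have m1 := mk δ a hδ1 hδ3 (by linarith) htc fun x _ => htn x
  have m2 := mk b R (by linarith) hbR le_rfl htc fun x _ => htn x
  have m3 := mk a b ha hab hbR.le (f := fun x => tr R x - w0) (htc.sub continuous_const) (by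
    intro x hx
    rw [hw0]
    have h0 : 0 ≤ x := by linarith [hx.1]
    rw [tr_eq hR0 h0 (by linarith [hx.2]), tr_eq hR0 (by linarith) hbR.le]
    have : x / R ≤ b / R := by gcongr; exact hx.2
    have h3 : (1 - b / R) / R ≤ (1 - x / R) / R := by gcongr
    linarith)
  filter_upwards [m1, m2, m3, hl (hnear δ hδ1 hδ2), hl (diag_low hR0 he0), hG0]
    with T h1 h2 h3 h4 h5 hF0
  have hFc := Fr_cont T
  have hci : ∀ {g : ℝ → ℝ}, Continuous g → ∀ p q : ℝ, IntervalIntegrable g volume p q :=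
    fun hg p q => hg.intervalIntegrable p q
  have c1 : Continuous fun α => tr R α * Fr T α := htc.mul hFc
  have c2 : Continuous fun α => tr R α * mn α := htc.mul mn_cont
  have c3 : Continuous fun α => tr R α * ω α := htc.mul hωc
  -- the decomposition
  have d1 : ∫ α, tr R α * Fr T α = (∫ α in (-δ)..δ, tr R α * Fr T α) +
      2 * ((∫ α in δ..a, tr R α * Fr T α) + (∫ α in a..b, tr R α * Fr T α) +
        ∫ α in b..R, tr R α * Fr T α) := by
    rw [int_supp hR0 (fun x hx => by rw [tr_supp hR0 x hx, zero_mul])]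
    rw [intervalIntegral.integral_add_adjacent_intervals (hci c1 _ _) (hci c1 _ _),
      intervalIntegral.integral_add_adjacent_intervals (hci c1 _ _) (hci c1 _ _)]
    rw [← intervalIntegral.integral_add_adjacent_intervals (a := -R) (b := -δ) (c := R)
      (hci c1 _ _) (hci c1 _ _), ← intervalIntegral.integral_add_adjacent_intervals (a := -δ)
      (b := δ) (c := R) (hci c1 _ _) (hci c1 _ _)]
    have : ∫ α in (-R)..(-δ), tr R α * Fr T α = ∫ α in δ..R, tr R α * Fr T α := by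
      have h6 := intervalIntegral.integral_comp_neg (a := δ) (b := R)
        (fun α => tr R α * Fr T α)
      rw [← h6]
      refine intervalIntegral.integral_congr fun α _ => ?_
      rw [tr_even, Fr_even]
    rw [this]
    ring
  have d2 : ∫ α in (-δ)..δ, tr R α * Fr T α ≤ 1 / R * (1 + R * e) := by
    calc ∫ α in (-δ)..δ, tr R α * Fr T α ≤ ∫ α in (-δ)..δ, 1 / R * Fr T α := by
          refine intervalIntegral.integral_mono_on (by linarith) (hci c1 _ _)
            (hci (continuous_const.mul hFc) _ _) fun α _ => ?_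
          apply mul_le_mul_of_nonneg_right _ (hF0 α)
          unfold tr
          apply div_le_div_of_nonneg_right _ hR0.le
          apply max_le (by norm_num)
          have : 0 ≤ |α| / R := by positivity
          linarith
      _ = 1 / R * ∫ α in (-δ)..δ, Fr T α := intervalIntegral.integral_const_mul _ _
      _ ≤ _ := by gcongr
  have d3 : ∫ α in (0 : ℝ)..R, tr R α * mn α = (∫ α in (0 : ℝ)..δ, tr R α * mn α) +
      (∫ α in δ..a, tr R α * mn α) + (∫ α in a..b, tr R α * mn α) +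
        ∫ α in b..R, tr R α * mn α := by
    rw [intervalIntegral.integral_add_adjacent_intervals (hci c2 _ _) (hci c2 _ _),
      intervalIntegral.integral_add_adjacent_intervals (hci c2 _ _) (hci c2 _ _),
      intervalIntegral.integral_add_adjacent_intervals (hci c2 _ _) (hci c2 _ _)]
  have d3' : ∫ α in (0 : ℝ)..R, tr R α * ω α = (∫ α in (0 : ℝ)..δ, tr R α * ω α) +
      (∫ α in δ..a, tr R α * ω α) + (∫ α in a..b, tr R α * ω α) +
        ∫ α in b..R, tr R α * ω α := by
    rw [intervalIntegral.integral_add_adjacent_intervals (hci c3 _ _) (hci c3 _ _),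
      intervalIntegral.integral_add_adjacent_intervals (hci c3 _ _) (hci c3 _ _),
      intervalIntegral.integral_add_adjacent_intervals (hci c3 _ _) (hci c3 _ _)]
  have d4 : 0 ≤ ∫ α in (0 : ℝ)..δ, tr R α * mn α :=
    intervalIntegral.integral_nonneg hδ1.le fun x _ => mul_nonneg (htn x) (mn_nonneg x)
  have d4' : 0 ≤ ∫ α in (0 : ℝ)..δ, tr R α * ω α :=
    intervalIntegral.integral_nonneg hδ1.le fun x _ => mul_nonneg (htn x) (hω0 x)
  have d6 : ∫ α in (0 : ℝ)..R, tr R α * ω α ≤ 1 / R * Ω := by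
    calc ∫ α in (0 : ℝ)..R, tr R α * ω α ≤ ∫ α in (0 : ℝ)..R, 1 / R * ω α := by
          refine intervalIntegral.integral_mono_on hR0.le (hci c3 _ _)
            (hci (continuous_const.mul hωc) _ _) fun α _ => ?_
          apply mul_le_mul_of_nonneg_right _ (hω0 α)
          unfold tr
          apply div_le_div_of_nonneg_right _ hR0.le
          apply max_le (by norm_num)
          have : 0 ≤ |α| / R := by positivity
          linarith
      _ = 1 / R * ∫ α in (0 : ℝ)..R, ω α := intervalIntegral.integral_const_mul _ _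
      _ ≤ _ := by gcongr
  have d7 : 0 ≤ ∫ α in a..b, ω α := intervalIntegral.integral_nonneg hab.le fun x _ => hω0 x
  rw [tr_mn hR] at d3
  have d5 : ∀ g : ℝ → ℝ, Continuous g → ∫ α in a..b, (tr R α - w0) * g α =
      (∫ α in a..b, tr R α * g α) - w0 * ∫ α in a..b, g α := by
    intro g hg
    have k1 : Continuous fun α => tr R α * g α := htc.mul hg
    have k2 : Continuous fun α => w0 * g α := continuous_const.mul hg
    rw [← intervalIntegral.integral_const_mul,
      ← intervalIntegral.integral_sub (hci k1 _ _) (hci k2 _ _)]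
    refine intervalIntegral.integral_congr fun x _ => ?_
    ring
  have d8 : ∀ p q : ℝ, ∫ α in p..q, tr R α * (mn α + ω α) =
      (∫ α in p..q, tr R α * mn α) + ∫ α in p..q, tr R α * ω α := by
    intro p q
    rw [← intervalIntegral.integral_add (hci c2 _ _) (hci c3 _ _)]
    refine intervalIntegral.integral_congr fun x _ => ?_
    ring
  have d9 : ∫ α in a..b, (mn α + ω α) = (∫ α in a..b, mn α) + ∫ α in a..b, ω α :=
    intervalIntegral.integral_add (hci mn_cont _ _) (hci hωc _ _)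
  rw [d5 _ hFc, d5 _ hmc, d8, d9, mul_add] at h3
  rw [d8] at h1 h2
  have d10 : 0 ≤ w0 * ∫ α in a..b, ω α := mul_nonneg hw1.le d7
  have hRe : 1 / R * (1 + R * e) = 1 / R + e := by field_simp
  rw [hRe] at d2
  have hRR : 1 / (2 * R) = 1 / R / 2 := by field_simp
  rw [hRR] at d3
  -- the weighted lower bound
  have k1 : w0 * (∫ α in a..b, mn α) - 1 / (6 * R ^ 2) - 1 / R * Ω - 4 * e ≤
      w0 * ∫ α in a..b, Fr T α := by
    linarith
  have k2 : w0 * ((∫ α in a..b, mn α) - 1 / (6 * (R - b)) - R / (R - b) * Ω - ε) ≤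
      w0 * ∫ α in a..b, Fr T α := by
    have hne : R - b ≠ 0 := by linarith
    have e1 : w0 * (1 / (6 * (R - b))) = 1 / (6 * R ^ 2) := by
      rw [hw0']
      field_simp
    have e3 : w0 * (R / (R - b) * Ω) = 1 / R * Ω := by
      rw [hw0']
      field_simp
    have e2 : w0 * ((∫ α in a..b, mn α) - 1 / (6 * (R - b)) - R / (R - b) * Ω - ε) =
        w0 * (∫ α in a..b, mn α) - 1 / (6 * R ^ 2) - 1 / R * Ω - 8 * e := by
      rw [mul_sub, mul_sub, mul_sub, e1, e3, he]
      ring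
    rw [e2]
    linarith
  exact le_of_mul_le_mul_left k2 hw1

/-- **the total excess of the form factor bounds its defect** -/
theorem excess (RH : RiemannHypothesis) {l : Filter ℝ} (hl : l ≤ atTop)
    {ω : ℝ → ℝ} (hωc : Continuous ω) (hω0 : ∀ x, 0 ≤ ω x) (hωi : IntegrableOn ω (Ioi 0))
    (hup : ∀ a b : ℝ, 0 < a → a < b → ∀ ε : ℝ, 0 < ε → ∀ᶠ T in l,
      ∫ α in a..b, Fr T α ≤ (∫ α in a..b, (mn α + ω α)) + ε)
    {a b : ℝ} (ha : 0 < a) (hab : a < b) {ε : ℝ} (hε : 0 < ε) :
    ∀ᶠ T in l, (∫ α in a..b, mn α) - (∫ α in Ioi (0 : ℝ), ω α) - ε ≤ ∫ α in a..b, Fr T α := by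
  obtain ⟨Ω, hΩ⟩ : ∃ Ω : ℝ, Ω = ∫ α in Ioi (0 : ℝ), ω α := ⟨_, rfl⟩
  have hΩ0 : 0 ≤ Ω := by
    rw [hΩ]; exact setIntegral_nonneg measurableSet_Ioi fun x _ => hω0 x
  have hb0 : 0 < b := ha.trans hab
  obtain ⟨R, hR⟩ : ∃ R : ℝ, R = b + 1 + (1 + b * Ω) * (3 / ε) := ⟨_, rfl⟩
  have hq : 0 < (1 + b * Ω) * (3 / ε) := by positivity
  have hRb : 0 < R - b := by rw [hR]; linarith
  have hle : ∫ α in (0 : ℝ)..R, ω α ≤ Ω := by
    rw [hΩ, intervalIntegral.integral_of_le (by linarith)]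
    exact setIntegral_mono_set hωi (ae_of_all _ hω0) Ioc_subset_Ioi_self.eventuallyLE
  filter_upwards [quantw RH hl (R := R) (by linarith) hωc hω0 hle
    (fun a' b' h1 h2 _ => hup a' b' h1 h2) ha hab (by linarith) (ε := ε / 3) (by positivity)] with T hT
  rw [← hΩ]
  have h1 : 1 / (6 * (R - b)) ≤ ε / 3 := by
    rw [div_le_iff₀ (by positivity)]
    have h2 : (1 + b * Ω) * (3 / ε) ≤ R - b := by rw [hR]; linarith
    have h3 : 3 / ε ≤ (1 + b * Ω) * (3 / ε) := by
      have : 0 ≤ b * Ω := by positivity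
      have h4 : 0 < 3 / ε := by positivity
      nlinarith
    have h5 : 3 / ε ≤ R - b := h3.trans h2
    rw [div_le_iff₀ hε] at h5
    nlinarith
  have h6 : R / (R - b) * Ω ≤ Ω + ε / 3 := by
    have h7 : R / (R - b) * Ω = Ω + b * Ω / (R - b) := by
      have hne : R - b ≠ 0 := by linarith
      field_simp
      ring
    rw [h7]
    have h8 : b * Ω / (R - b) ≤ ε / 3 := by
      rw [div_le_iff₀ hRb]
      have h2 : (1 + b * Ω) * (3 / ε) ≤ R - b := by rw [hR]; linarith
      have h9 : ε / 3 * ((1 + b * Ω) * (3 / ε)) = 1 + b * Ω := by field_simp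
      have h10 := mul_le_mul_of_nonneg_left h2 (show 0 ≤ ε / 3 by positivity)
      rw [h9] at h10
      linarith
    linarith
  linarith

end Pool.Agent.N805.FL
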