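import Pool.Agent.N805.FL2

/-! # Lower bounds for the means of the form factor, repulsion, and pair correlation: conclusion -/

set_option autoImplicit false

open MeasureTheory Set Filter Topology
open scoped NNReal ENNReal

namespace Pool.Agent.N805.FL

open Pool.Agent.Y749.Rig
open Pool.Agent.Y744.G (zeros mult X Montgomery N X_eq N_eq Mont_iff)

variable {l : Filter ℝ}

lemma sym_int (T c : ℝ) : ∫ α in (-c)..c, Fr T α = 2 * ∫ α in (0 : ℝ)..c, Fr T α := by
  have hFc := Fr_cont T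
  rw [← intervalIntegral.integral_add_adjacent_intervals (b := 0) (hFc.intervalIntegrable _ _)
    (hFc.intervalIntegrable _ _)]
  have h5 : ∫ α in (-c)..0, Fr T α = ∫ α in (0 : ℝ)..c, Fr T α := by
    have := intervalIntegral.integral_comp_neg (a := (0 : ℝ)) (b := c) (Fr T)
    rw [neg_zero] at this
    rw [← this]
    exact intervalIntegral.integral_congr fun α _ => Fr_even T α
  rw [h5]
  ring

/-- Montgomery's theorem for windows in `(0, 1)` -/
lemma mont_win (RH : RiemannHypothesis) {a b : ℝ} (ha : 0 < a) (hab : a < b) (hb : b < 1) :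
    Tendsto (fun T => ∫ α in a..b, Fr T α) atTop (𝓝 ((b ^ 2 - a ^ 2) / 2)) := by
  have h := ((mont RH (ha.trans hab) hb).sub (mont RH ha (hab.trans hb))).div_const 2
  have e : (1 + b ^ 2 - (1 + a ^ 2)) / 2 = (b ^ 2 - a ^ 2) / 2 := by ring
  rw [e] at h
  refine h.congr fun T => ?_
  have hFc := Fr_cont T
  rw [sym_int, sym_int, ← intervalIntegral.integral_add_adjacent_intervals (a := 0) (b := a)
    (c := b) (hFc.intervalIntegrable _ _) (hFc.intervalIntegrable _ _)]
  ring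

lemma mn_int1 {a b : ℝ} (ha : 0 ≤ a) (hab : a ≤ b) (hb : b ≤ 1) :
    ∫ α in a..b, mn α = (b ^ 2 - a ^ 2) / 2 := by
  have : ∫ α in a..b, mn α = ∫ α in a..b, α := by
    refine intervalIntegral.integral_congr fun α hα => ?_
    rw [uIcc_of_le hab] at hα
    show min |α| 1 = α
    rw [abs_of_nonneg (ha.trans hα.1), min_eq_left (hα.2.trans hb)]
  rw [this, integral_id]

lemma mn_int2 {a b : ℝ} (ha : 1 ≤ a) (hab : a ≤ b) : ∫ α in a..b, mn α = b - a := by
  have : ∫ α in a..b, mn α = ∫ α in a..b, (1 : ℝ) := by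
    refine intervalIntegral.integral_congr fun α hα => ?_
    rw [uIcc_of_le hab] at hα
    show min |α| 1 = 1
    rw [abs_of_nonneg (by linarith [hα.1]), min_eq_right (ha.trans hα.1)]
  rw [this]
  simp

lemma mn_int3 {a b : ℝ} (ha : 0 ≤ a) (ha1 : a ≤ 1) (hb : 1 ≤ b) :
    ∫ α in a..b, mn α = b - 1 / 2 - a ^ 2 / 2 := by
  rw [← intervalIntegral.integral_add_adjacent_intervals (b := 1)
    (mn_cont.intervalIntegrable _ _) (mn_cont.intervalIntegrable _ _), mn_int1 ha ha1 le_rfl,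
    mn_int2 le_rfl hb]
  ring

/-- upper bounds for all means -/
theorem up_all (RH : RiemannHypothesis) (hl : l ≤ atTop) {κ β0 : ℝ} (hκ : 0 ≤ κ) (hβ : 0 < β0)
    (hrep : ∀ β : ℝ, 0 < β → β ≤ β0 → ∀ ε : ℝ, 0 < ε → ∀ᶠ T in l,
      (Mp T).real (Icc (-β) β) ≤ 1 + κ * β + ε)
    (hlow : ∀ a' b' : ℝ, 1 ≤ a' → a' < b' → ∀ ε : ℝ, 0 < ε → ∀ᶠ T in l,
      (b' - a') - ε ≤ ∫ α in a'..b', Fr T α)
    {a b : ℝ} (ha : 0 < a) (hab : a < b) {ε : ℝ} (hε : 0 < ε) :
    ∀ᶠ T in l, ∫ α in a..b, Fr T α ≤ (∫ α in a..b, mn α) + 3 * κ / 2 + ε := by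
  rcases lt_or_ge b 1 with hb | hb
  · have h := (hl (((mont_win RH ha hab hb).eventually
      (gt_mem_nhds (show (b ^ 2 - a ^ 2) / 2 < (b ^ 2 - a ^ 2) / 2 + ε by linarith)))))
    filter_upwards [h] with T hT
    have hT' : ∫ α in a..b, Fr T α < (b ^ 2 - a ^ 2) / 2 + ε := hT
    rw [mn_int1 ha.le hab.le hb.le]
    have : 0 ≤ 3 * κ / 2 := by positivity
    linarith
  · rcases lt_or_ge a 1 with h1 | h1
    · filter_upwards [up_key RH hl hκ hβ hrep hlow ha h1 hb hε] with T hT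
      rw [mn_int3 ha.le h1.le hb]
      exact hT
    · obtain ⟨δ, hδ⟩ : ∃ δ : ℝ, δ = min (1 / 2) (ε / 4) := ⟨_, rfl⟩
      have hδ0 : 0 < δ := by rw [hδ]; exact lt_min (by norm_num) (by positivity)
      have hδ1 : δ ≤ 1 / 2 := by rw [hδ]; exact min_le_left _ _
      have hδ2 : δ ≤ ε / 4 := by rw [hδ]; exact min_le_right _ _
      have hl1 : ∀ᶠ T in l, (a - 1) - ε / 4 ≤ ∫ α in (1 : ℝ)..a, Fr T α := by
        rcases h1.eq_or_lt with h2 | h2
        · rw [← h2]
          refine Filter.Eventually.of_forall fun T => ?_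
          simp
          positivity
        · exact hlow 1 a le_rfl h2 (ε / 4) (by positivity)
      filter_upwards [up_key RH hl hκ hβ hrep hlow (a := 1 - δ) (by linarith) (by linarith) hb
        (show 0 < ε / 4 by positivity), hl1, hl (eventually_ge_atTop 10)] with T h3 h4 hT
      have hFc := Fr_cont T
      have hF0 := Fr_nonneg hT
      have h5 : 0 ≤ ∫ α in (1 - δ)..1, Fr T α :=
        intervalIntegral.integral_nonneg (by linarith) fun x _ => hF0 x
      have h6 : ∫ α in (1 - δ)..b, Fr T α = (∫ α in (1 - δ)..1, Fr T α) +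
          (∫ α in (1 : ℝ)..a, Fr T α) + ∫ α in a..b, Fr T α := by
        rw [intervalIntegral.integral_add_adjacent_intervals (hFc.intervalIntegrable _ _)
          (hFc.intervalIntegrable _ _), intervalIntegral.integral_add_adjacent_intervals
          (hFc.intervalIntegrable _ _) (hFc.intervalIntegrable _ _)]
      rw [mn_int2 h1 hab.le]
      nlinarith

lemma Mp_N {T : ℝ} (hT : 10 ≤ T) (α β : ℝ) :
    (Mp T).real (Icc α β) = N T α β / X T := by
  rw [Mp_PC hT measurableSet_Icc, N_eq (by linarith), X_eq]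

lemma X_pos {T : ℝ} (hT : 10 ≤ T) : 0 < X T := by
  unfold X
  have : 0 < Real.log T := Real.log_pos (by linarith)
  have := Real.pi_pos
  have : 0 < T := by linarith
  positivity

/-- lower bounds for the means -/
def MeanLower (l : Filter ℝ) : Prop := ∀ a b : ℝ, 1 ≤ a → a < b → ∀ ε : ℝ, 0 < ε →
  ∀ᶠ T in l, (b - a) - ε ≤ ∫ α in a..b, (P.F T α).re

/-- the density of the pairs vanishes at distance zero, and almost all zeros are simple -/
def Repulsion (l : Filter ℝ) : Prop := ∀ κ : ℝ, 0 < κ → ∃ β0 : ℝ, 0 < β0 ∧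
  ∀ β : ℝ, 0 < β → β ≤ β0 → ∀ᶠ T in l, (N T (-β) β : ℝ) ≤ (1 + κ * β) * X T

lemma low_iff (hl : l ≤ atTop) : MeanLower l ↔ ∀ a' b' : ℝ, 1 ≤ a' → a' < b' → ∀ ε : ℝ, 0 < ε →
    ∀ᶠ T in l, (b' - a') - ε ≤ ∫ α in a'..b', Fr T α := by
  refine forall_congr' fun a => forall_congr' fun b => forall_congr' fun _ => forall_congr' fun _ =>
    forall_congr' fun ε => forall_congr' fun _ => ?_
  constructor
  · intro h
    filter_upwards [h, hl (eventually_ge_atTop 10)] with T h1 h2
    rwa [P.mean_eq h2] at h1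
  · intro h
    filter_upwards [h, hl (eventually_ge_atTop 10)] with T h1 h2
    rwa [P.mean_eq h2]

lemma gd_small {κ : ℝ} (hκ : 0 < κ) : ∃ β0 : ℝ, 0 < β0 ∧ ∀ β : ℝ, 0 < β → β ≤ β0 →
    Pool.Agent.Y744.pr (-β) β < 1 + κ * β := by
  have hc := Pool.Agent.Y744.gd_cont
  have h0 : Pool.Agent.Y744.gd 0 = 0 := by
    unfold Pool.Agent.Y744.gd
    simp
  have h1 : ∀ᶠ u in 𝓝 (0 : ℝ), Pool.Agent.Y744.gd u < κ / 4 := by
    have := hc.continuousAt (x := 0)
    refine this.eventually (gt_mem_nhds ?_)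
    rw [h0]; positivity
  obtain ⟨r, hr, hball⟩ := Metric.eventually_nhds_iff.1 h1
  refine ⟨r / 2, by positivity, fun β hβ hβr => ?_⟩
  unfold Pool.Agent.Y744.pr
  rw [Set.indicator_of_mem (show (0 : ℝ) ∈ Icc (-β) β from ⟨by linarith, hβ.le⟩),
    Pool.Agent.Y744.gp_sub]
  have h2 : ∫ u in (-β)..β, Pool.Agent.Y744.gd u ≤ ∫ u in (-β)..β, κ / 4 := by
    refine intervalIntegral.integral_mono_on (by linarith) (hc.intervalIntegrable _ _)
      (by simp) fun u hu => ?_
    refine (hball ?_).le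
    rw [Real.dist_eq, sub_zero]
    exact (abs_le.2 hu).trans_lt (by linarith)
  have h3 : ∫ u in (-β)..β, κ / 4 = κ * β / 2 := by
    rw [intervalIntegral.integral_const, smul_eq_mul]; ring
  have h4 : 0 < κ * β := by positivity
  rw [h3] at h2
  linarith

/-- **lower bounds for the form factor and repulsion are equivalent to the pair correlation
conjecture**, with a quantitative version -/
theorem lower_main (RH : RiemannHypothesis) (l : Filter ℝ) (hl : l ≤ atTop) :
    (Montgomery l ↔ MeanLower l ∧ Repulsion l) ∧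
    (MeanLower l → ∀ κ β0 : ℝ, 0 ≤ κ → 0 < β0 →
      (∀ β : ℝ, 0 < β → β ≤ β0 → ∀ ε : ℝ, 0 < ε → ∀ᶠ T in l,
        (N T (-β) β : ℝ) ≤ (1 + κ * β + ε) * X T) →
      ∀ a b : ℝ, 1 ≤ a → a < b → ∀ ε : ℝ, 0 < ε → ∀ᶠ T in l,
        ∫ α in a..b, (P.F T α).re ≤ (b - a) + 3 / 2 * κ + ε) := by
  have conv : ∀ κ β0 : ℝ, (∀ β : ℝ, 0 < β → β ≤ β0 → ∀ ε : ℝ, 0 < ε → ∀ᶠ T in l,
        (N T (-β) β : ℝ) ≤ (1 + κ * β + ε) * X T) → ∀ β : ℝ, 0 < β → β ≤ β0 → ∀ ε : ℝ, 0 < ε →
        ∀ᶠ T in l, (Mp T).real (Icc (-β) β) ≤ 1 + κ * β + ε := by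
    intro κ β0 h β h1 h2 ε hε
    filter_upwards [h β h1 h2 ε hε, hl (eventually_ge_atTop 10)] with T h3 hT
    rw [Mp_N hT, div_le_iff₀ (X_pos hT)]
    exact h3
  constructor
  · constructor
    · intro hM
      rw [Mont_iff hl] at hM
      have hw := weak_win hl hM
      have hlim := mean_lim RH hl (up_weak hl hw)
      refine ⟨?_, ?_⟩
      · rw [low_iff hl]
        intro a b ha hab ε hε
        have h1 := (hlim a b (by linarith) hab).eventually (lt_mem_nhds
          (show (b - a) - ε < ∫ α in a..b, mn α by rw [mn_int2 ha hab.le]; linarith))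
        exact h1.mono fun T hT => le_of_lt hT
      · intro κ hκ
        obtain ⟨β0, hβ0, h⟩ := gd_small hκ
        refine ⟨β0, hβ0, fun β h1 h2 => ?_⟩
        filter_upwards [(hM (-β) β (by linarith)).eventually (gt_mem_nhds (h β h1 h2)),
          hl (eventually_ge_atTop 10)] with T h3 hT
        have h4 : Pool.Agent.Y744.Nr T (-β) β < 1 + κ * β := h3
        have h5 : Pool.Agent.Y744.Nr T (-β) β = N T (-β) β / X T := by
          unfold Pool.Agent.Y744.Nr
          rw [N_eq (by linarith), X_eq]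
        rw [h5, div_lt_iff₀ (X_pos hT)] at h4
        exact h4.le
    · rintro ⟨h1, h2⟩
      rw [low_iff hl] at h1
      have hup : ∀ R : ℝ, MeanUp l R := by
        intro R a b ha hab _ ε hε
        obtain ⟨β0, hβ0, h3⟩ := h2 (ε / 3) (by positivity)
        have h4 : ∀ β : ℝ, 0 < β → β ≤ β0 → ∀ ε' : ℝ, 0 < ε' → ∀ᶠ T in l,
            (N T (-β) β : ℝ) ≤ (1 + ε / 3 * β + ε') * X T := by
          intro β g1 g2 ε' hε'
          filter_upwards [h3 β g1 g2, hl (eventually_ge_atTop 10)] with T g3 hT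
          have := X_pos hT
          nlinarith [mul_pos hε' this]
        filter_upwards [up_all RH hl (κ := ε / 3) (by positivity) hβ0 (conv _ _ h4) h1 ha hab
          (show 0 < ε / 2 by positivity)] with T hT
        linarith
      rw [Mont_iff hl]
      intro α β hαβ
      exact Pool.Agent.Y744.Nr_all hl (Aa_lim hl (weak_mean RH hl (mean_lim RH hl hup))) hαβ
  · intro h1 κ β0 hκ hβ h a b ha hab ε hε
    rw [low_iff hl] at h1
    filter_upwards [up_all RH hl hκ hβ (conv _ _ h) h1 (a := a) (b := b) (by linarith) hab hε,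
      hl (eventually_ge_atTop 10)] with T h2 hT
    rw [P.mean_eq hT]
    rw [mn_int2 ha hab.le] at h2
    linarith

end Pool.Agent.N805.FL
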