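import Pool.Agent.N805.FL3

/-! # The excess of the form factor over `min(α, 1)`: statements with the function itself -/

set_option autoImplicit false

open MeasureTheory Set Filter Topology
open Complex (I)

namespace Pool.Agent.N805.FL

open Pool.Agent.Y749.Rig
open Pool.Agent.Y744.G (zeros mult X Montgomery)

/-- the excess theorem for Montgomery's function, with the equivalence -/
theorem excess_main (RH : RiemannHypothesis) (l : Filter ℝ) (hl : l ≤ atTop) :
    (Montgomery l ↔ ∀ a b : ℝ, 0 < a → a < b → ∀ ε : ℝ, 0 < ε → ∀ᶠ T in l,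
      ∫ α in a..b, (P.F T α).re ≤ (∫ α in a..b, min α 1) + ε) ∧
    (∀ ω : ℝ → ℝ, Continuous ω → (∀ x, 0 ≤ ω x) → IntegrableOn ω (Ioi 0) →
      (∀ a b : ℝ, 0 < a → a < b → ∀ ε : ℝ, 0 < ε → ∀ᶠ T in l,
        ∫ α in a..b, (P.F T α).re ≤ (∫ α in a..b, (min α 1 + ω α)) + ε) →
      ∀ a b : ℝ, 0 < a → a < b → ∀ ε : ℝ, 0 < ε → ∀ᶠ T in l,
        (∫ α in a..b, min α 1) - (∫ α in Ioi (0 : ℝ), ω α) - ε ≤ ∫ α in a..b, (P.F T α).re) := by
  constructor
  · rw [(P.main RH l hl).1]
    constructor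
    · intro h a b ha hab ε hε
      exact h b a b ha hab le_rfl ε hε
    · intro h R a b ha hab _ ε hε
      exact h a b ha hab ε hε
  · intro ω hωc hω0 hωi hup a b ha hab ε hε
    have hup' : ∀ a b : ℝ, 0 < a → a < b → ∀ ε : ℝ, 0 < ε → ∀ᶠ T in l,
        ∫ α in a..b, Fr T α ≤ (∫ α in a..b, (mn α + ω α)) + ε := by
      intro a b ha hab ε hε
      filter_upwards [hup a b ha hab ε hε, hl (eventually_ge_atTop 10)] with T h1 hT
      rw [P.mean_eq hT] at h1
      have e : ∫ α in a..b, (min α 1 + ω α) = ∫ α in a..b, (mn α + ω α) := by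
        refine intervalIntegral.integral_congr fun α hα => ?_
        rw [uIcc_of_le hab.le] at hα
        show min α 1 + ω α = min |α| 1 + ω α
        rw [abs_of_nonneg (ha.le.trans hα.1)]
      rwa [e] at h1
    filter_upwards [excess RH hl hωc hω0 hωi hup' ha hab hε, hl (eventually_ge_atTop 10)]
      with T h1 hT
    rw [P.mean_eq hT, P.min_eq ha hab]
    exact h1

end Pool.Agent.N805.FL
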