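import Pool.Agent.N805.FL6

/-! # Repulsion of the zeros and the total mass of the form factor beyond one: conclusion -/

set_option autoImplicit false

open MeasureTheory Set Filter Topology
open scoped NNReal ENNReal

namespace Pool.Agent.N805.FL

open Pool.Agent.Y749.Rig
open Pool.Agent.Y744.G (zeros mult X Montgomery N X_eq N_eq Mont_iff)

variable {l : Filter ℝ}

/-- the weighted mass of `F - min(α, 1)` on `(1/2, R)` -/
noncomputable def Bal (T R : ℝ) : ℝ :=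
  ∫ α in (1 / 2 : ℝ)..R, (1 - α / R) * ((P.F T α).re - min α 1)

lemma Bal_eq {T R : ℝ} (hT : 10 ≤ T) (hR : 1 ≤ R) : Bal T R = BB T R := by
  unfold Bal BB
  refine intervalIntegral.integral_congr fun α hα => ?_
  rw [uIcc_of_le (by linarith)] at hα
  show (1 - α / R) * ((P.F T α).re - min α 1) = (1 - α / R) * (Fr T α - min |α| 1)
  rw [P.F_eq hT, Complex.ofReal_re, abs_of_nonneg (by linarith [hα.1])]

lemma diag_pair {R : ℝ} (hR : 0 < R) {ε : ℝ} (hε : 0 < ε) :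
    ∀ᶠ T in atTop, 1 - ε ≤ ∫ x, fl (tr R) x ∂(Mp T) := by
  obtain ⟨C, hC, hB⟩ := Mp_bdd
  filter_upwards [Mp_zero hε, eventually_ge_atTop 10, hB] with T h1 hT hBT
  refine h1.trans ?_
  have hfin := Mp_fin T
  have e : (Mp T).real {0} = ∫ x in ({0} : Set ℝ), fl (tr R) x ∂(Mp T) := by
    rw [integral_singleton, fl_tr_zero hR]
    simp
  rw [e]
  exact setIntegral_le_integral (Bdd.integrable (by linarith) hBT (fl_cont (tr_int hR))
    (fl_qd (adm_tr hR))) (ae_of_all _ fun x => fl_tr_nonneg hR x)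

/-- the lower bound for the weighted mass -/
theorem bal_low (RH : RiemannHypothesis) (hl : l ≤ atTop) {R : ℝ} (hR : 1 ≤ R) {ε : ℝ}
    (hε : 0 < ε) : ∀ᶠ T in l, -(1 / (6 * R)) - ε ≤ Bal T R := by
  have hR0 : 0 < R := by linarith
  have h1 := (BB_lim RH hR).eventually (gt_mem_nhds (show 1 / (3 * R) < 1 / (3 * R) + ε by linarith))
  filter_upwards [hl h1, hl (diag_pair hR0 (show 0 < ε / R by positivity)),
    hl (eventually_ge_atTop 10)] with T h2 h3 hT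
  have h2' : R * ((∫ x, fl (tr R) x ∂(Mp T)) - 1) - 2 * BB T R < 1 / (3 * R) + ε := h2
  rw [Bal_eq hT hR]
  have h4 : R * (-(ε / R)) ≤ R * ((∫ x, fl (tr R) x ∂(Mp T)) - 1) :=
    mul_le_mul_of_nonneg_left (by linarith) hR0.le
  have h5 : R * (-(ε / R)) = -ε := by field_simp
  have h6 : 1 / (6 * R) = 1 / (3 * R) / 2 := by field_simp; norm_num
  rw [h5] at h4
  rw [h6]
  linarith

/-- the upper bound for the weighted mass from the linear bound for the close pairs -/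
theorem bal_up (RH : RiemannHypothesis) (hl : l ≤ atTop) {κ β0 : ℝ} (hκ : 0 ≤ κ) (hβ : 0 < β0)
    (hrep : ∀ β : ℝ, 0 < β → β ≤ β0 → ∀ ε : ℝ, 0 < ε → ∀ᶠ T in l,
      (Mp T).real (Icc (-β) β) ≤ 1 + κ * β + ε) {η : ℝ} (hη : 0 < η) :
    ∃ R0 : ℝ, 1 ≤ R0 ∧ ∀ R : ℝ, R0 ≤ R → ∀ᶠ T in l, Bal T R ≤ 3 / 2 * κ + η := by
  obtain ⟨K, hK, hS⟩ := S_all
  obtain ⟨K', hK'⟩ : ∃ K' : ℝ, K' = (1 + 4 / β0 ^ 2) * K := ⟨_, rfl⟩
  have hK0 : 0 ≤ K' := by rw [hK']; positivity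
  refine ⟨1 + 1 / β0 + K' / η, ?_, fun R hR => ?_⟩
  · have : 0 ≤ 1 / β0 + K' / η := by positivity
    linarith
  have hp1 : 0 < 1 / β0 := by positivity
  have hp2 : 0 ≤ K' / η := by positivity
  have hR1 : 1 ≤ R := by linarith
  have hR0 : 0 < R := by linarith
  have hRb : 1 / β0 ≤ R := by linarith
  have h1 := (BB_lim RH hR1).eventually (lt_mem_nhds
    (show 1 / (3 * R) - η / 2 < 1 / (3 * R) by linarith))
  filter_upwards [hl h1, hS l hl κ β0 hκ hβ hrep R hRb (η / (2 * R)) (by positivity),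
    hl (eventually_ge_atTop 10)] with T h2 h3 hT
  have h2' : 1 / (3 * R) - η / 2 < R * ((∫ x, fl (tr R) x ∂(Mp T)) - 1) - 2 * BB T R := h2
  rw [← hK'] at h3
  rw [Bal_eq hT hR1]
  have h4 : R * ((∫ x, fl (tr R) x ∂(Mp T)) - 1) ≤ R * (3 * κ / R + K' / R ^ 2 + η / (2 * R)) :=
    mul_le_mul_of_nonneg_left (by linarith) hR0.le
  have h5 : R * (3 * κ / R + K' / R ^ 2 + η / (2 * R)) = 3 * κ + K' / R + η / 2 := by
    field_simp
  have h6 : K' / R ≤ η := by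
    rw [div_le_iff₀ hR0]
    have h7 : K' / η ≤ R := by linarith
    rw [div_le_iff₀ hη] at h7
    linarith
  have h7 : 0 < 1 / (3 * R) := by positivity
  rw [h5] at h4
  linarith

/-- the bound for the close pairs from the upper bound for the weighted mass -/
theorem close_of_bal (RH : RiemannHypothesis) (hl : l ≤ atTop) {M R0 : ℝ}
    (hR0 : 1 ≤ R0) (h : ∀ R : ℝ, R0 ≤ R → ∀ ε : ℝ, 0 < ε → ∀ᶠ T in l, Bal T R ≤ M + ε)
    {β : ℝ} (hβ : 0 < β) (hβ1 : β ≤ 1 / (2 * R0)) {ε : ℝ} (hε : 0 < ε) :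
    ∀ᶠ T in l, (Mp T).real (Icc (-β) β) ≤ 1 + Real.pi ^ 2 * M * β + Real.pi ^ 2 / 3 * β ^ 2 + ε := by
  have hpi := Real.pi_pos
  have hpi4 : Real.pi ^ 2 ≤ 16 := by
    have := Real.pi_lt_four
    nlinarith
  have hpi3 : 4 < Real.pi ^ 2 := by
    have := Real.pi_gt_three
    nlinarith
  obtain ⟨R, hR⟩ : ∃ R : ℝ, R = 1 / (2 * β) := ⟨_, rfl⟩
  have hRp : 0 < R := by rw [hR]; positivity
  have hβR : 1 / (2 * R) = β := by rw [hR]; field_simp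
  have hRR : R0 ≤ R := by
    rw [hR, le_div_iff₀ (by positivity)]
    rw [le_div_iff₀ (by positivity)] at hβ1
    linarith
  have hR1 : 1 ≤ R := hR0.trans hRR
  obtain ⟨e, he⟩ : ∃ e : ℝ, e = ε / 100 := ⟨_, rfl⟩
  have he0 : 0 < e := by rw [he]; positivity
  obtain ⟨C, hC, hB⟩ := Mp_bdd
  have h1 := (BB_lim RH hR1).eventually (gt_mem_nhds
    (show 1 / (3 * R) < 1 / (3 * R) + e by linarith))
  filter_upwards [hl h1, h R hRR e he0, hl (Mp_zero he0), hl hB, hl (eventually_ge_atTop 10)]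
    with T h2 h3 h4 hBT hT
  have h2' : R * ((∫ x, fl (tr R) x ∂(Mp T)) - 1) - 2 * BB T R < 1 / (3 * R) + e := h2
  rw [Bal_eq hT hR1] at h3
  have h5 := close_le hT hRp (by linarith) hBT
  rw [hβR] at h5
  obtain ⟨m, hm⟩ : ∃ m : ℝ, m = (Mp T).real (Icc (-β) β) := ⟨_, rfl⟩
  obtain ⟨m0, hm0⟩ : ∃ m0 : ℝ, m0 = (Mp T).real {0} := ⟨_, rfl⟩
  obtain ⟨S, hS⟩ : ∃ S : ℝ, S = ∫ x, fl (tr R) x ∂(Mp T) := ⟨_, rfl⟩
  rw [← hm, ← hm0, ← hS] at h5
  rw [← hm0] at h4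
  rw [← hS] at h2'
  rw [← hm]
  -- S - 1 ≤ 2 β (2 β / 3 + 2 M + 3 e)
  have h6 : R * (S - 1) ≤ 1 / (3 * R) + 2 * M + 3 * e := by linarith
  have h7 : 1 / (3 * R) = 2 * β / 3 := by rw [hR]; field_simp
  rw [h7] at h6
  have h8 : S - 1 ≤ 2 * β * (2 * β / 3 + 2 * M + 3 * e) := by
    have h9 := mul_le_mul_of_nonneg_left h6 (show 0 ≤ 2 * β by positivity)
    have h10 : 2 * β * (R * (S - 1)) = S - 1 := by rw [hR]; field_simp
    rwa [h10] at h9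
  have h11 : m - m0 ≤ Real.pi ^ 2 / 4 * (S - m0) := by
    have h12 := mul_le_mul_of_nonneg_left h5 (show 0 ≤ Real.pi ^ 2 / 4 by positivity)
    have h13 : Real.pi ^ 2 / 4 * (4 / Real.pi ^ 2 * (m - m0)) = m - m0 := by field_simp
    rwa [h13] at h12
  have hβh : β ≤ 1 / 2 := by
    refine hβ1.trans ?_
    apply one_div_le_one_div_of_le (by norm_num)
    linarith
  have h14 : Real.pi ^ 2 / 4 * (S - 1) ≤ Real.pi ^ 2 / 4 * (2 * β * (2 * β / 3 + 2 * M + 3 * e)) :=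
    mul_le_mul_of_nonneg_left h8 (by positivity)
  have h15 : Real.pi ^ 2 / 4 * (2 * β * (2 * β / 3 + 2 * M + 3 * e)) =
      Real.pi ^ 2 * M * β + Real.pi ^ 2 / 3 * β ^ 2 + 3 / 2 * Real.pi ^ 2 * β * e := by ring
  have h16 : 3 / 2 * Real.pi ^ 2 * β * e ≤ 12 * e := by
    have : Real.pi ^ 2 * β ≤ 16 * (1 / 2) := by gcongr
    nlinarith
  have h17 : (Real.pi ^ 2 / 4 - 1) * (1 - m0) ≤ 3 * e := by
    have h18 : (Real.pi ^ 2 / 4 - 1) * (1 - m0) ≤ (Real.pi ^ 2 / 4 - 1) * e := by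
      apply mul_le_mul_of_nonneg_left (by linarith)
      linarith
    have h19 : (Real.pi ^ 2 / 4 - 1) * e ≤ 3 * e := by
      apply mul_le_mul_of_nonneg_right _ he0.le
      linarith
    linarith
  have h20 : m ≤ 1 + Real.pi ^ 2 / 4 * (S - 1) + (Real.pi ^ 2 / 4 - 1) * (1 - m0) := by
    nlinarith
  have he' : 100 * e = ε := by rw [he]; ring
  linarith

/-- **linear repulsion and the mass of the form factor** -/
theorem rep_main (RH : RiemannHypothesis) (l : Filter ℝ) (hl : l ≤ atTop) :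
    (Repulsion l ↔ ∀ η : ℝ, 0 < η → ∃ R0 : ℝ, ∀ R : ℝ, R0 ≤ R → ∀ᶠ T in l, |Bal T R| ≤ η) ∧
    (∀ R : ℝ, 1 ≤ R → ∀ ε : ℝ, 0 < ε → ∀ᶠ T in l, -(1 / (6 * R)) - ε ≤ Bal T R) ∧
    (∀ κ β0 : ℝ, 0 ≤ κ → 0 < β0 →
      (∀ β : ℝ, 0 < β → β ≤ β0 → ∀ ε : ℝ, 0 < ε → ∀ᶠ T in l,
        (N T (-β) β : ℝ) ≤ (1 + κ * β + ε) * X T) →
      ∀ η : ℝ, 0 < η → ∃ R0 : ℝ, ∀ R : ℝ, R0 ≤ R → ∀ᶠ T in l, Bal T R ≤ 3 / 2 * κ + η) ∧
    (∀ M R0 : ℝ, 1 ≤ R0 → (∀ R : ℝ, R0 ≤ R → ∀ ε : ℝ, 0 < ε → ∀ᶠ T in l, Bal T R ≤ M + ε) →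
      ∀ β : ℝ, 0 < β → β ≤ 1 / (2 * R0) → ∀ ε : ℝ, 0 < ε → ∀ᶠ T in l,
        (N T (-β) β : ℝ) ≤ (1 + Real.pi ^ 2 * M * β + Real.pi ^ 2 / 3 * β ^ 2 + ε) * X T) := by
  have conv : ∀ κ β0 : ℝ, (∀ β : ℝ, 0 < β → β ≤ β0 → ∀ ε : ℝ, 0 < ε → ∀ᶠ T in l,
        (N T (-β) β : ℝ) ≤ (1 + κ * β + ε) * X T) → ∀ β : ℝ, 0 < β → β ≤ β0 → ∀ ε : ℝ, 0 < ε →
        ∀ᶠ T in l, (Mp T).real (Icc (-β) β) ≤ 1 + κ * β + ε := by
    intro κ β0 h β h1 h2 ε hε
    filter_upwards [h β h1 h2 ε hε, hl (eventually_ge_atTop 10)] with T h3 hT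
    rw [Mp_N hT, div_le_iff₀ (X_pos hT)]
    exact h3
  have partB : ∀ κ β0 : ℝ, 0 ≤ κ → 0 < β0 →
      (∀ β : ℝ, 0 < β → β ≤ β0 → ∀ ε : ℝ, 0 < ε → ∀ᶠ T in l,
        (N T (-β) β : ℝ) ≤ (1 + κ * β + ε) * X T) →
      ∀ η : ℝ, 0 < η → ∃ R0 : ℝ, ∀ R : ℝ, R0 ≤ R → ∀ᶠ T in l, Bal T R ≤ 3 / 2 * κ + η := by
    intro κ β0 hκ hβ h η hη
    obtain ⟨R0, -, h1⟩ := bal_up RH hl hκ hβ (conv κ β0 h) hη
    exact ⟨R0, h1⟩
  have partC : ∀ M R0 : ℝ, 1 ≤ R0 →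
      (∀ R : ℝ, R0 ≤ R → ∀ ε : ℝ, 0 < ε → ∀ᶠ T in l, Bal T R ≤ M + ε) →
      ∀ β : ℝ, 0 < β → β ≤ 1 / (2 * R0) → ∀ ε : ℝ, 0 < ε → ∀ᶠ T in l,
        (N T (-β) β : ℝ) ≤ (1 + Real.pi ^ 2 * M * β + Real.pi ^ 2 / 3 * β ^ 2 + ε) * X T := by
    intro M R0 hR0 h β h1 h2 ε hε
    filter_upwards [close_of_bal RH hl hR0 h h1 h2 hε, hl (eventually_ge_atTop 10)] with T h3 hT
    rw [Mp_N hT, div_le_iff₀ (X_pos hT)] at h3
    exact h3
  refine ⟨⟨fun hrep η hη => ?_, fun h κ hκ => ?_⟩, fun R hR ε hε => bal_low RH hl hR hε, partB, partC⟩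
  · obtain ⟨β0, hβ0, h1⟩ := hrep (η / 3) (by positivity)
    obtain ⟨R1, h2⟩ := partB (η / 3) β0 (by positivity) hβ0 (fun β g1 g2 ε hε => by
      filter_upwards [h1 β g1 g2, hl (eventually_ge_atTop 10)] with T g3 hT
      have := X_pos hT
      nlinarith [mul_pos hε this]) (η / 2) (by positivity)
    refine ⟨max (max R1 1) (1 / η), fun R hR => ?_⟩
    have hR1 : R1 ≤ R := (le_max_left _ _).trans ((le_max_left _ _).trans hR)
    have hR2 : 1 ≤ R := (le_max_right _ _).trans ((le_max_left _ _).trans hR)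
    have hR3 : 1 / η ≤ R := (le_max_right _ _).trans hR
    filter_upwards [h2 R hR1, bal_low RH hl hR2 (show 0 < η / 2 by positivity)] with T h3 h4
    rw [abs_le]
    constructor
    · have h5 : 1 / (6 * R) ≤ η / 2 := by
        rw [div_le_iff₀ hη] at hR3
        rw [div_le_iff₀ (by positivity)]
        nlinarith
      linarith
    · linarith
  · have hpi := Real.pi_pos
    have hpi0 : 0 < Real.pi ^ 2 := by positivity
    obtain ⟨R0, h1⟩ := h (κ / (4 * Real.pi ^ 2)) (by positivity)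
    have h2 := partC (κ / (4 * Real.pi ^ 2)) (max R0 1) (le_max_right _ _) (fun R hR ε hε => by
      filter_upwards [h1 R ((le_max_left _ _).trans hR)] with T h3
      have := (abs_le.1 h3).2
      linarith)
    refine ⟨min (1 / (2 * max R0 1)) (3 * κ / (4 * Real.pi ^ 2)), ?_, fun β g1 g2 => ?_⟩
    · have : 0 < max R0 1 := lt_of_lt_of_le one_pos (le_max_right _ _)
      exact lt_min (by positivity) (by positivity)
    · filter_upwards [h2 β g1 (g2.trans (min_le_left _ _)) (κ * β / 4) (by positivity),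
        hl (eventually_ge_atTop 10)] with T h3 hT
      refine h3.trans (mul_le_mul_of_nonneg_right ?_ (X_pos hT).le)
      have h4 : Real.pi ^ 2 * (κ / (4 * Real.pi ^ 2)) * β = κ * β / 4 := by field_simp
      have h5 : Real.pi ^ 2 / 3 * β ^ 2 ≤ κ * β / 4 := by
        have h6 := g2.trans (min_le_right _ _)
        rw [le_div_iff₀ (by positivity)] at h6
        nlinarith
      rw [h4]
      have : 0 < κ * β := by positivity
      linarith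

end Pool.Agent.N805.FL
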